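import Pool.Agent.Helper64.FL.StG

/-! MP_866009_co: condition (CI). -/

set_option autoImplicit false

namespace Pool.Agent.Helper64.FL

open Pool.Agent.Helper64.CT Pool.Agent.Helper64.DT
open Pool.Agent.Helper64.HG (Ovl Model Circ IC HellyCircle ChordModel)

variable {V : Type} {G : SimpleGraph V}

theorem cim_legX {o a b : V} {la lb : List V} (h : LegX G o la a lb b) : LegX G o lb b la a :=
  fun u hu v hv => ⟨fun e => (h v hv u hu).1 e.symm, fun e => (h v hv u hu).2 e.symm⟩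

theorem cim_netX {x a y b : V} {la lb : List V} (h : NetX G x la a y lb b) :
    NetX G y lb b x la a :=
  fun u hu v hv => ⟨fun e => (h v hv u hu).1 e.symm, fun e =>
    ⟨((h v hv u hu).2 e.symm).2, ((h v hv u hu).2 e.symm).1⟩⟩

theorem cim_clw1 {S : Set V} {o a b c : V} {la lb lc : List V}
    (h : Clw G S o la a lb b lc c) : Clw G S o la a lc c lb b :=
  { oS := h.oS
    inS := fun u hu => h.inS u (by tauto)
    pa := h.pa
    pb := h.pc
    pc := h.pb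
    ab := h.ac
    ac := h.ab
    bc := cim_legX h.bc }

theorem cim_clw2 {S : Set V} {o a b c : V} {la lb lc : List V}
    (h : Clw G S o la a lb b lc c) : Clw G S o lb b lc c la a :=
  { oS := h.oS
    inS := fun u hu => h.inS u (by tauto)
    pa := h.pb
    pb := h.pc
    pc := h.pa
    ab := h.bc
    ac := cim_legX h.ab
    bc := cim_legX h.ac }

theorem cim_net1 {S : Set V} {x y z a b c : V} {la lb lc : List V}
    (h : Net G S x y z la a lb b lc c) : Net G S x z y la a lc c lb b :=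
  { inS := fun u hu => h.inS u (by tauto)
    xy := h.xz
    xz := h.xy
    yz := h.yz.symm
    pa := h.pa
    pb := h.pc
    pc := h.pb
    ab := h.ac
    ac := h.ab
    bc := cim_netX h.bc }

theorem cim_net2 {S : Set V} {x y z a b c : V} {la lb lc : List V}
    (h : Net G S x y z la a lb b lc c) : Net G S y z x lb b lc c la a :=
  { inS := fun u hu => h.inS u (by tauto)
    xy := h.yz
    xz := h.xy.symm
    yz := h.xz.symm
    pa := h.pb
    pb := h.pc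
    pc := h.pa
    ab := h.bc
    ac := cim_netX h.ab
    bc := cim_netX h.ac }

theorem st_CIM (hCIB : ST_CIB) (hCNB : ST_CNB) (hCI3 : ST_CI3) (hSTE : ST_STE) (hCA0 : ST_CA0)
    (hCA1 : ST_CA1) (hCA3 : ST_CA3) : ST_CIM := by
  intro V _ G hR hN
  by_contra hCI
  obtain ⟨cib1, cib2, -⟩ := hCIB V G
  obtain ⟨v, a, b, c, h⟩ := cib1 hCI
  obtain ⟨hbac, hacb, nab, nac, nbc, -⟩ := cib2 _ _ _ _ _ h
  have hbca := (cib2 _ _ _ _ _ hbac).2.1
  have hcab := (cib2 _ _ _ _ _ hacb).1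
  obtain ⟨cn1, cn2, cn3, cn4, cn5, cn6, cn7⟩ := hCNB V G
  have e1 := hCI3 V G hR hN v a b c h
  have e2 := hCI3 V G hR hN v b a c hbac
  have e3 := hCI3 V G hR hN v c a b hcab
  have k1 : ∀ o, o ≠ v → ¬ (G.Adj o a ∧ G.Adj o b) ∧ ¬ (G.Adj o a ∧ G.Adj o c) ∧
      ¬ (G.Adj o b ∧ G.Adj o c) := fun o ho => ⟨e3 o ho, e2 o ho, e1 o ho⟩
  have k2 : ∀ o, o ≠ v → ¬ (G.Adj o a ∧ G.Adj o c) ∧ ¬ (G.Adj o a ∧ G.Adj o b) ∧
      ¬ (G.Adj o c ∧ G.Adj o b) := fun o ho =>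
    ⟨e2 o ho, e3 o ho, fun hh => e1 o ho ⟨hh.2, hh.1⟩⟩
  have k3 : ∀ o, o ≠ v → ¬ (G.Adj o b ∧ G.Adj o c) ∧ ¬ (G.Adj o b ∧ G.Adj o a) ∧
      ¬ (G.Adj o c ∧ G.Adj o a) := fun o ho =>
    ⟨e1 o ho, fun hh => e3 o ho ⟨hh.2, hh.1⟩, fun hh => e2 o ho ⟨hh.2, hh.1⟩⟩
  obtain ⟨c1, n1⟩ := hCA3 V G hN v a b c h k1
  obtain ⟨c2, n2⟩ := hCA3 V G hN v a c b hacb k2
  obtain ⟨c3, n3⟩ := hCA3 V G hN v b c a hbca k3
  have hab : Cn G {u | u ≠ v} a b := by
    refine cn3 _ _ _ _ ?_ h.ab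
    rintro u ⟨-, hu⟩ rfl
    exact hu.2 h.vc.symm
  have hac : Cn G {u | u ≠ v} a c := by
    refine cn3 _ _ _ _ ?_ h.ac
    rintro u ⟨-, hu⟩ rfl
    exact hu.2 h.vb.symm
  rcases hSTE V G {u | u ≠ v} a b c hab hac nab nac nbc with ⟨o, la, lb, lc, hc⟩ |
    ⟨x, y, z, la, lb, lc, hn⟩
  · have d1 := c1 o la lb lc hc
    have d2 := c2 o la lc lb (cim_clw1 hc)
    have d3 := c3 o lb lc la (cim_clw2 hc)
    exact hCA0 V G hN v a b c h o la lb lc hc (fun e => d3 (Or.inr e)) (fun e => d2 (Or.inr e))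
      (fun e => d1 (Or.inr e)) (fun e => d3 (Or.inl e)) (fun e => d2 (Or.inl e))
      (fun e => d1 (Or.inl e))
  · exact hCA1 V G hN v a b c h x y z la lb lc hn (n3 y z x lb lc la (cim_net2 hn))
      (n2 x z y la lc lb (cim_net1 hn)) (n1 x y z la lb lc hn)

end Pool.Agent.Helper64.FL
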