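import Pool.Agent.Helper64.FL.StE

/-! MP_866009_co: a certificate gives the covering. -/

set_option autoImplicit false

namespace Pool.Agent.Helper64.FL

theorem st_COV (hCRT : ST_CRT) : ST_COV := by
  intro V G s f L k m hR hM hc y
  by_contra hy
  push Not at hy
  obtain ⟨h1, h2⟩ := hy
  have h := hCRT V G s f L 32 k m {v | v ≠ y} hM (hR.naj y) (fun i hi _ hiy => h1 i hi hiy.symm)
    (fun p hp x hx hxy => h2 p hp (hxy ▸ hx))
  rw [hc] at h
  exact Bool.noConfusion h

end Pool.Agent.Helper64.FL
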