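import Pool.Agent.Helper64.FL.StE

/-! MP_866009_co: the engine. -/

set_option autoImplicit false

namespace Pool.Agent.Helper64.FL

theorem st_ENG (hSND : ST_SND) (hCOV : ST_COV) : ST_ENG := by
  intro V G tb0 t s f L k m hR hM hc ht
  exact (hSND V G tb0 true t s f L hR hM (fun _ => hCOV V G s f L k m hR hM hc) ht).2

end Pool.Agent.Helper64.FL
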