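import Pool.Agent.Helper64.FL.StC

/-! ENU: enumeration of a graph of maximum degree two without short cycles. -/

set_option autoImplicit false

namespace Pool.Agent.Helper64.FL

open Classical in
/-- `1` if both entries exist and are related, otherwise `0` -/
noncomputable def enuJ {α : Type} (B : α → α → Prop) : Option α → Option α → ℕ
  | some a, some b => if B a b then 1 else 0
  | _, _ => 0

/-- number of related consecutive pairs -/
noncomputable def enuG {α : Type} (B : α → α → Prop) : List α → ℕ
  | [] => 0
  | a :: l => enuJ B (some a) l.head? + enuG B l

theorem enuJ_none {α : Type} (B : α → α → Prop) (o : Option α) : enuJ B none o = 0 := by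
  cases o <;> rfl

theorem enuJ_none' {α : Type} (B : α → α → Prop) (o : Option α) : enuJ B o none = 0 := by
  cases o <;> rfl

theorem enuJ_one {α : Type} {B : α → α → Prop} {a b : α} (h : B a b) :
    enuJ B (some a) (some b) = 1 := by
  simp [enuJ, h]

theorem enuJ_le {α : Type} (B : α → α → Prop) (o o' : Option α) : enuJ B o o' ≤ 1 := by
  cases o with
  | none => simp [enuJ_none]
  | some a =>
    cases o' with
    | none => simp [enuJ_none']
    | some b => simp only [enuJ]; split <;> simp

theorem enuJ_pos {α : Type} {B : α → α → Prop} {o o' : Option α} (h : enuJ B o o' ≠ 0) :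
    ∃ a b, o = some a ∧ o' = some b ∧ B a b := by
  cases o with
  | none => exact absurd (enuJ_none B o') h
  | some a =>
    cases o' with
    | none => exact absurd (enuJ_none' B (some a)) h
    | some b =>
      refine ⟨a, b, rfl, rfl, ?_⟩
      by_contra hc
      exact h (by simp [enuJ, hc])

theorem enuJ_symm {α : Type} {B : α → α → Prop} (hs : ∀ a b, B a b → B b a) (o o' : Option α) :
    enuJ B o o' = enuJ B o' o := by
  cases o with
  | none => simp [enuJ_none, enuJ_none']
  | some a =>
    cases o' with
    | none => simp [enuJ_none, enuJ_none']
    | some b =>
      by_cases h : B a b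
      · rw [enuJ_one h, enuJ_one (hs _ _ h)]
      · have h' : ¬ B b a := fun h' => h (hs _ _ h')
        simp [enuJ, h, h']

theorem enuG_append {α : Type} (B : α → α → Prop) (X Y : List α) :
    enuG B (X ++ Y) = enuG B X + enuJ B X.getLast? Y.head? + enuG B Y := by
  induction X with
  | nil => simp [enuG, enuJ_none]
  | cons a X ih =>
    cases X with
    | nil => simp [enuG, enuJ_none']
    | cons c X =>
      have e1 : enuG B (a :: c :: X) = enuJ B (some a) (some c) + enuG B (c :: X) := rfl
      have e2 : enuG B (a :: (c :: X ++ Y)) = enuJ B (some a) (some c) + enuG B (c :: X ++ Y) := rfl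
      rw [List.cons_append, e2, ih, e1, List.getLast?_cons_cons]
      ring

theorem enuG_single {α : Type} (B : α → α → Prop) (a : α) : enuG B [a] = 0 := by
  simp [enuG, enuJ_none']

theorem enuG_reverse {α : Type} {B : α → α → Prop} (hs : ∀ a b, B a b → B b a) (X : List α) :
    enuG B X.reverse = enuG B X := by
  induction X with
  | nil => rfl
  | cons a X ih =>
    rw [List.reverse_cons, enuG_append, ih, enuG_single, enuG, List.getLast?_reverse,
      List.head?_cons, enuJ_symm hs]
    ring

theorem enuG_le {α : Type} (B : α → α → Prop) (X : List α) : enuG B X ≤ X.length := by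
  induction X with
  | nil => simp [enuG]
  | cons a X ih =>
    rw [enuG, List.length_cons]
    have := enuJ_le B (some a) X.head?
    omega

theorem enu_split {α : Type} (B : α → α → Prop) (W : List α) : List.IsChain B W ∨
    ∃ W1 W2, W = W1 ++ W2 ∧ W1 ≠ [] ∧ W2 ≠ [] ∧ enuJ B W1.getLast? W2.head? = 0 := by
  induction W with
  | nil => exact Or.inl List.IsChain.nil
  | cons a W ih =>
    cases W with
    | nil => exact Or.inl (List.IsChain.singleton a)
    | cons c W =>
      by_cases h : B a c
      · rcases ih with ih | ⟨W1, W2, e, h1, h2, h3⟩
        · exact Or.inl (List.IsChain.cons_cons h ih)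
        · refine Or.inr ⟨a :: W1, W2, by rw [e]; rfl, by simp, h2, ?_⟩
          obtain ⟨d, W1', rfl⟩ := List.exists_cons_of_ne_nil h1
          rw [List.getLast?_cons_cons]
          exact h3
      · exact Or.inr ⟨[a], c :: W, rfl, by simp, by simp, by simp [enuJ, h]⟩

theorem enu_max {α : Type} [Finite α] (B : α → α → Prop) : ∃ L : List α, L.Nodup ∧
    (∀ a, a ∈ L) ∧ ∀ L' : List α, L'.Perm L → enuG B L' ≤ enuG B L := by
  classical
  have := Fintype.ofFinite α
  set N := Fintype.card α with hN
  have hex : ∃ n, ∃ L : List α, (L.Nodup ∧ ∀ a, a ∈ L) ∧ N - enuG B L = n :=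
    ⟨_, Finset.univ.toList, ⟨Finset.nodup_toList _, fun a => by simp⟩, rfl⟩
  obtain ⟨L, ⟨h1, h2⟩, h3⟩ := Nat.find_spec hex
  refine ⟨L, h1, h2, fun L' hp => ?_⟩
  have hL' : L'.Nodup ∧ ∀ a, a ∈ L' := ⟨(hp.nodup_iff).2 h1, fun a => (hp.mem_iff).2 (h2 a)⟩
  have hmin := Nat.find_min' hex ⟨L', hL', rfl⟩
  have hlen : L'.length ≤ N := List.Nodup.length_le_card hL'.1
  have := enuG_le B L'
  omega

theorem enu_cyc {α : Type} {B : α → α → Prop} (hs : ∀ a b, B a b → B b a) {W : List α} {a b : α}
    (hW : W.Nodup) (hc : List.IsChain B W) (h3 : 3 ≤ W.length) (hab : B a b)
    (ha : W.head? = some a) (hb : W.getLast? = some b)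
    (hq : ∀ (m : ℕ) (q : ℕ → α), 3 ≤ m → (∀ i, q (i + m) = q i) →
      (∀ i j, i < j → j < i + m → q i ≠ q j) → (∀ i, B (q i) (q (i + 1))) → ∀ a, ∃ i, q i = a) :
    ∀ c, c ∈ W := by
  intro c
  have hm : ∀ i, i % W.length < W.length := fun i => Nat.mod_lt _ (by omega)
  have hinj : ∀ i j, i < j → j < i + W.length → W[i % W.length]'(hm i) ≠ W[j % W.length]'(hm j) := by
    intro i j hij hji he
    have h := (List.Nodup.getElem_inj_iff hW).1 he
    have e1 := Nat.div_add_mod i W.length
    have e2 := Nat.div_add_mod j W.length
    rw [h] at e1
    have hlt : W.length * (i / W.length) < W.length * (j / W.length) := by omega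
    have hlt' : i / W.length < j / W.length := lt_of_mul_lt_mul_left hlt (Nat.zero_le _)
    have : W.length * (i / W.length + 1) ≤ W.length * (j / W.length) :=
      Nat.mul_le_mul_left _ hlt'
    rw [Nat.mul_add, Nat.mul_one] at this
    omega
  have hBB : ∀ i, B (W[i % W.length]'(hm i)) (W[(i + 1) % W.length]'(hm (i + 1))) := by
    intro i
    have hch := List.isChain_iff_getElem.1 hc
    by_cases hi : i % W.length + 1 < W.length
    · have e : (i + 1) % W.length = i % W.length + 1 := by
        rw [Nat.add_mod, Nat.mod_eq_of_lt (show 1 < W.length by omega)]
        exact Nat.mod_eq_of_lt hi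
      simp only [e]
      exact hch _ hi
    · have e0 : i % W.length = W.length - 1 := by have := hm i; omega
      have e : (i + 1) % W.length = 0 := by
        rw [Nat.add_mod, Nat.mod_eq_of_lt (show 1 < W.length by omega), e0]
        rw [Nat.sub_add_cancel (by omega)]
        exact Nat.mod_self _
      have e1 : W[i % W.length]'(hm i) = b := by
        have : W[W.length - 1]? = some b := by rw [← List.getLast?_eq_getElem?]; exact hb
        rw [List.getElem?_eq_getElem (by omega)] at this
        simp only [e0]
        exact Option.some.inj this
      have e2 : W[(i + 1) % W.length]'(hm (i + 1)) = a := by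
        have : W[0]? = some a := by rw [← List.head?_eq_getElem?]; exact ha
        rw [List.getElem?_eq_getElem (by omega)] at this
        simp only [e]
        exact Option.some.inj this
      simp only [e1, e2]
      exact hs _ _ hab
  obtain ⟨i, hi⟩ := hq W.length (fun i => W[i % W.length]'(hm i)) h3 (fun i => by simp) hinj hBB c
  rw [← hi]
  exact List.getElem_mem _

theorem st_ENU : ST_ENU := by
  classical
  intro α _ B h3 hs hi hdeg hq
  obtain ⟨L, hnd, hall, hmax⟩ := enu_max B
  have hcard : L.length = Nat.card α := by
    have := Fintype.ofFinite α
    rw [Nat.card_eq_fintype_card, ← List.toFinset_card_of_nodup hnd]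
    rw [← Finset.card_univ]
    congr 1
    ext a
    simp [hall a]
  refine ⟨fun a => L.idxOf a, fun a b h => ?_, fun a => ?_, ?_⟩
  · exact (List.idxOf_inj (hall a)).1 h
  · rw [← hcard]
    exact List.idxOf_lt_length_iff.2 (hall a)
  · intro a b hab hlt
    simp only at hlt
    obtain ⟨X, T, hX⟩ := List.append_of_mem (hall a)
    have haX : a ∉ X := by
      intro h
      rw [hX] at hnd
      exact (List.nodup_append.1 hnd).2.2 a h a (by simp) rfl
    have hbX : b ∉ X := by
      intro h
      have : L.idxOf b < X.length := by
        rw [hX, List.idxOf_append_of_mem h]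
        exact List.idxOf_lt_length_iff.2 h
      have h' : L.idxOf a = X.length := by
        rw [hX, List.idxOf_append_of_notMem haX]
        simp
      omega
    have hbT : b ∈ T := by
      have := hall b
      rw [hX] at this
      rcases List.mem_append.1 this with h | h
      · exact absurd h hbX
      · rcases List.mem_cons.1 h with h | h
        · exact absurd (h ▸ hab) (hi a)
        · exact h
    obtain ⟨Y, Z, hY⟩ := List.append_of_mem hbT
    subst hY
    subst hX
    have hia : (X ++ a :: (Y ++ b :: Z)).idxOf a = X.length := by
      rw [List.idxOf_append_of_notMem haX]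
      simp
    have hab' : a ≠ b := fun h => hi a (h ▸ hab)
    have hn1 := (List.nodup_append.1 hnd).2.1
    have hn2 : (Y ++ b :: Z).Nodup := (List.nodup_cons.1 hn1).2
    have hbY : b ∉ Y := fun h => (List.nodup_append.1 hn2).2.2 b h b (by simp) rfl
    have hib : (X ++ a :: (Y ++ b :: Z)).idxOf b = X.length + (Y.length + 1) := by
      rw [List.idxOf_append_of_notMem hbX, List.idxOf_cons_ne _ hab',
        List.idxOf_append_of_notMem hbY]
      simp
    by_cases hYn : Y = []
    · left
      simp only
      rw [hia, hib, hYn]
      simp
    right
    -- the numbers of good pairs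
    set p := enuJ B X.getLast? (some a) with hp
    set q := enuJ B (some a) Y.head? with hq'
    set r := enuJ B Y.getLast? (some b) with hr
    set s := enuJ B (some b) Z.head? with hs'
    have gL : enuG B (X ++ a :: (Y ++ b :: Z)) =
        enuG B X + p + q + enuG B Y + r + s + enuG B Z := by
      have e1 : X ++ a :: (Y ++ b :: Z) = X ++ ([a] ++ (Y ++ ([b] ++ Z))) := by simp
      rw [e1, enuG_append B X, enuG_append B [a], enuG_append B Y, enuG_append B [b],
        enuG_single, enuG_single]
      have e2 : (Y ++ ([b] ++ Z)).head? = Y.head? := by
        cases Y with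
        | nil => exact absurd rfl hYn
        | cons c Y => rfl
      rw [e2]
      simp only [List.cons_append, List.nil_append, List.head?_cons, List.getLast?_singleton]
      ring
    have hpq : p = 0 ∨ q = 0 := by
      by_contra hc
      push Not at hc
      obtain ⟨c, a1, e1, e2, h1⟩ := enuJ_pos hc.1
      obtain ⟨a2, d, e3, e4, h2⟩ := enuJ_pos hc.2
      cases e2
      cases e3
      have hcX : c ∈ X := List.mem_of_getLast? e1
      have hdY : d ∈ Y := List.mem_of_head? e4
      have hdis := (List.nodup_append.1 hnd).2.2
      refine hdeg a b c d hab (hs _ _ h1) h2 ?_ ?_ ?_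
      · exact fun h => hbX (h ▸ hcX)
      · exact fun h => hbY (h ▸ hdY)
      · exact hdis c hcX d (by simp [hdY])
    have hrs : r = 0 ∨ s = 0 := by
      by_contra hc
      push Not at hc
      obtain ⟨c, b1, e1, e2, h1⟩ := enuJ_pos hc.1
      obtain ⟨b2, d, e3, e4, h2⟩ := enuJ_pos hc.2
      cases e2
      cases e3
      have hcY : c ∈ Y := List.mem_of_getLast? e1
      have hdZ : d ∈ Z := List.mem_of_head? e4
      have haT : a ∉ Y ++ b :: Z := (List.nodup_cons.1 hn1).1
      refine hdeg b a c d (hs _ _ hab) (hs _ _ h1) h2 ?_ ?_ ?_
      · exact fun h => haT (h ▸ (by simp [hcY]))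
      · exact fun h => haT (h ▸ (by simp [hdZ]))
      · exact (List.nodup_append.1 hn2).2.2 c hcY d (by simp [hdZ])
    rcases hpq with hp0 | hq0
    · rcases hrs with hr0 | hs0
      · -- case (ii)
        exfalso
        have hm := hmax (X ++ (Y.reverse ++ a :: b :: Z)) (List.perm_iff_count.2 fun x => by
          simp only [List.count_append, List.count_cons, List.count_reverse]; omega)
        have e1 : X ++ (Y.reverse ++ a :: b :: Z) = X ++ (Y.reverse ++ ([a] ++ ([b] ++ Z))) := by
          simp
        rw [gL, e1, enuG_append B X, enuG_append B Y.reverse, enuG_append B [a], enuG_append B [b],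
          enuG_single, enuG_single, enuG_reverse hs] at hm
        simp only [List.cons_append, List.nil_append, List.head?_cons, List.getLast?_singleton,
          List.getLast?_reverse] at hm
        rw [enuJ_symm hs Y.head? (some a), enuJ_one hab] at hm
        omega
      · -- case (iii)
        rcases enu_split B (a :: (Y ++ [b])) with hch | ⟨W1, W2, e, hW1, hW2, hJ⟩
        · have hall' : ∀ c, c ∈ a :: (Y ++ [b]) := by
            refine enu_cyc hs ?_ hch ?_ hab rfl ?_ hq
            · have : (X ++ (a :: (Y ++ [b]) ++ Z)).Nodup := by
                have e : X ++ (a :: (Y ++ [b]) ++ Z) = X ++ a :: (Y ++ b :: Z) := by simp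
                rw [e]; exact hnd
              exact (List.nodup_append.1 (List.nodup_append.1 this).2.1).1
            · cases Y with
              | nil => exact absurd rfl hYn
              | cons c Y => simp
            · rw [List.getLast?_cons, List.getLast?_concat]
              rfl
          have hXn : X = [] := by
            cases X with
            | nil => rfl
            | cons c X =>
              exfalso
              have hc := hall' c
              have hdis := (List.nodup_append.1 hnd).2.2 c (by simp)
              rcases List.mem_cons.1 hc with h | h
              · exact hdis a (by simp) h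
              · rcases List.mem_append.1 h with h | h
                · exact hdis c (by simp [h]) rfl
                · exact hdis b (by simp) (List.mem_singleton.1 h)
          have hZn : Z = [] := by
            cases Z with
            | nil => rfl
            | cons c Z =>
              exfalso
              have hc := hall' c
              rcases List.mem_cons.1 hc with h | h
              · exact (List.nodup_cons.1 hn1).1 (h ▸ (by simp))
              · rcases List.mem_append.1 h with h | h
                · exact (List.nodup_append.1 hn2).2.2 c h c (by simp) rfl
                · have hn3 := (List.nodup_append.1 hn2).2.1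
                  exact (List.nodup_cons.1 hn3).1 ((List.mem_singleton.1 h) ▸ (by simp))
          subst hXn
          subst hZn
          refine ⟨?_, ?_, ?_⟩
          · simp only
            rw [hia]; rfl
          · simp only
            rw [hib, ← hcard]
            simp
          · intro c d hcd
            simp only at hcd
            have hgc := List.isChain_iff_getElem.1 hch
            simp only [List.nil_append] at hcd hall
            have hcl := List.idxOf_lt_length_iff.2 (hall c)
            have hdl := List.idxOf_lt_length_iff.2 (hall d)
            have h := hgc ((a :: (Y ++ [b])).idxOf c) (by rw [← hcd]; exact hdl)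
            rw [List.getElem_idxOf] at h
            have h' : (a :: (Y ++ [b]))[(a :: (Y ++ [b])).idxOf c + 1]'(by rw [← hcd]; exact hdl) =
                d := by
              simp only [← hcd]
              exact List.getElem_idxOf _
            rw [h'] at h
            exact h
        · exfalso
          have e0 : X ++ a :: (Y ++ b :: Z) = X ++ (W1 ++ (W2 ++ Z)) := by
            have : X ++ a :: (Y ++ b :: Z) = X ++ (a :: (Y ++ [b])) ++ Z := by simp
            rw [this, e]; simp
          have hm := hmax (X ++ (W2 ++ (W1 ++ Z))) (by
            rw [e0]
            exact List.perm_iff_count.2 fun x => by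
              simp only [List.count_append]; omega)
          have hg0 : enuG B (a :: (Y ++ [b])) = q + enuG B Y + r := by
            have e1 : a :: (Y ++ [b]) = [a] ++ (Y ++ [b]) := rfl
            rw [e1, enuG_append B [a], enuG_append B Y, enuG_single, enuG_single]
            have e2 : (Y ++ [b]).head? = Y.head? := by
              cases Y with
              | nil => exact absurd rfl hYn
              | cons c Y => rfl
            rw [e2]
            simp only [List.getLast?_singleton, List.head?_cons]
            ring
          rw [e, enuG_append] at hg0
          rw [hJ] at hg0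
          have hl : W2.getLast? = some b := by
            have : (W1 ++ W2).getLast? = some b := by
              rw [← e, List.getLast?_cons, List.getLast?_concat]
              rfl
            obtain ⟨d, W2', rfl⟩ := List.exists_cons_of_ne_nil hW2
            rw [List.getLast?_append] at this
            rw [← this]
            cases h : (d :: W2').getLast? with
            | none => simp at h
            | some x => simp
          have hh : W1.head? = some a := by
            have : (W1 ++ W2).head? = some a := by rw [← e]; simp
            obtain ⟨d, W1', rfl⟩ := List.exists_cons_of_ne_nil hW1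
            exact this
          have hh' : (W1 ++ Z).head? = some a := by
            obtain ⟨d, W1', rfl⟩ := List.exists_cons_of_ne_nil hW1
            exact hh
          rw [gL, enuG_append B X, enuG_append B W2, enuG_append B W1, hl, hh',
            enuJ_one (hs _ _ hab)] at hm
          omega
    · rcases hrs with hr0 | hs0
      · -- case (iv)
        exfalso
        have hm := hmax (X ++ a :: b :: (Z ++ Y)) (List.perm_iff_count.2 fun x => by
          simp only [List.count_append, List.count_cons]; omega)
        have e1 : X ++ a :: b :: (Z ++ Y) = X ++ ([a] ++ ([b] ++ (Z ++ Y))) := by simp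
        rw [gL, e1, enuG_append B X, enuG_append B [a], enuG_append B [b], enuG_append B Z,
          enuG_single, enuG_single] at hm
        simp only [List.cons_append, List.nil_append, List.head?_cons, List.getLast?_singleton] at hm
        rw [enuJ_one hab] at hm
        have hs1 : s ≤ enuJ B (some b) (Z ++ Y).head? := by
          cases Z with
          | nil => rw [hs']; simp [enuJ_none']
          | cons c Z => rw [hs']; simp
        omega
      · -- case (i)
        exfalso
        have hm := hmax (X ++ a :: b :: (Y.reverse ++ Z)) (List.perm_iff_count.2 fun x => by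
          simp only [List.count_append, List.count_cons, List.count_reverse]; omega)
        have e1 : X ++ a :: b :: (Y.reverse ++ Z) = X ++ ([a] ++ ([b] ++ (Y.reverse ++ Z))) := by
          simp
        rw [gL, e1, enuG_append B X, enuG_append B [a], enuG_append B [b],
          enuG_append B Y.reverse, enuG_single, enuG_single, enuG_reverse hs] at hm
        simp only [List.cons_append, List.nil_append, List.head?_cons, List.getLast?_singleton] at hm
        have e2 : (Y.reverse ++ Z).head? = Y.getLast? := by
          rw [← List.head?_reverse]
          cases h : Y.reverse with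
          | nil => exact absurd (List.reverse_eq_nil_iff.1 h) hYn
          | cons c Y' => rfl
        rw [e2, enuJ_symm hs (some b) Y.getLast?, enuJ_one hab] at hm
        omega

end Pool.Agent.Helper64.FL
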