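import Pool.Agent.Helper64.FL.StG

/-! MP_866009_co: a vertex complete to `A_2` and not complete to `A_3`. -/

set_option autoImplicit false

namespace Pool.Agent.Helper64.FL

open Pool.Agent.Helper64.CT Pool.Agent.Helper64.DT
open Pool.Agent.Helper64.HG (Ovl Model Circ IC HellyCircle ChordModel)

theorem st_IIA (hCNB : ST_CNB) (hNRX : ST_NRX) (hPKX : ST_PKX) (hONF : ST_ONF) (hEQ2 : ST_EQ2)
    (hQI0 : ST_QI0) (hQI2 : ST_QI2) (hQI7 : ST_QI7) : ST_IIA := by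
  intro V G hN x y1 y2 y3 t q h12 h13 h23 ht hA2 hq htq
  obtain ⟨cn1, cn2, cn3, cn4, cn5, cn6, cn7⟩ := hCNB V G
  obtain ⟨p, hp, p', hp', ⟨M, ⟨w, hw, rfl⟩, hM1, hM2⟩, ⟨M', ⟨z, hz, rfl⟩, hM'⟩⟩ :=
    hEQ2 V (Att G x y2) {M | ∃ w, Comp G x y1 w ∧ M = {u | G.Adj w u}}
      {M | ∃ z, Comp G x y3 z ∧ M = {u | G.Adj z u}}
      (by
        obtain ⟨u, hu, ⟨n, hn, hun⟩, ⟨n', hn', hun'⟩⟩ := h12.2.1
        exact ⟨n, hn, n', hn', {v | G.Adj u v}, ⟨u, hu, rfl⟩, hun, hun'⟩)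
      (by
        obtain ⟨u, hu, ⟨n, hn, hun⟩, ⟨n', hn', hun'⟩⟩ := h23.2.2
        exact ⟨n, hn, n', hn', {v | G.Adj u v}, ⟨u, hu, rfl⟩, hun, hun'⟩)
  have hwp : G.Adj w p := hM1
  have hwp' : ¬ G.Adj w p' := hM2
  have hzp : (G.Adj z p ∧ ¬ G.Adj z p') ∨ (G.Adj z p' ∧ ¬ G.Adj z p) := hM'
  obtain ⟨Lz, r, hzr⟩ := hNRX V G x y3 z q hz hq
  have hI : IIA G x y1 y2 y3 p p' q t w z Lz r :=
    { c12 := h12.1
      c13 := h13.1
      c23 := h23.1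
      xp := hp.1
      xp' := hp'.1
      xq := hq.1
      tK := ht
      wK := hw
      tp := hA2 p hp
      tp' := hA2 p' hp'
      tq := htq
      wp := hwp
      wp' := hwp'
      q2 := fun h => htq (hA2 q h)
      zp := hzp
      zr := hzr }
  obtain ⟨L, hL⟩ := hPKX V G x y1 t w ht hw
  by_cases ha : ∃ e, Comp G x y2 e ∧ ((G.Adj e p ∧ ¬ G.Adj e p') ∨ (G.Adj e p' ∧ ¬ G.Adj e p))
  · obtain ⟨e, he, h | h⟩ := ha
    · obtain ⟨Le, e', hLe⟩ := hNRX V G x y2 e p' he hp'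
      exact hQI0 V G hN x y1 y2 y3 p p' q t w z Lz r hI L e Le e' hL (Or.inl ⟨h.1, h.2, hLe⟩)
    · obtain ⟨Le, e', hLe⟩ := hNRX V G x y2 e p he hp
      exact hQI0 V G hN x y1 y2 y3 p p' q t w z Lz r hI L e Le e' hL (Or.inr ⟨h.1, h.2, hLe⟩)
  · have hiff : ∀ e, Comp G x y2 e → (G.Adj e p ↔ G.Adj e p') := by
      intro e he
      constructor
      · intro h1
        by_contra h2
        exact ha ⟨e, he, Or.inl ⟨h1, h2⟩⟩
      · intro h1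
        by_contra h2
        exact ha ⟨e, he, Or.inr ⟨h1, h2⟩⟩
    obtain ⟨-, c, hc, hpc⟩ := hp
    by_cases hb : ∃ c s, Comp G x y2 c ∧ G.Adj c p ∧ s ∈ Att G x y1 ∧ ¬ G.Adj c s
    · obtain ⟨c, s, hc, hcp, hs, hcs⟩ := hb
      obtain ⟨hxs, u, hu, hsu⟩ := hs
      have hcn : Cn G (KC G x y1) u t :=
        cn2 _ _ _ _ (cn1 _ _ _ (cn6 _ _ _ hu)).2 (cn6 _ _ _ ht)
      obtain ⟨l1, f, l2, -, -, -, hor⟩ := hONF V G (KC G x y1) (fun u => G.Adj u s) t w L hL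
        ⟨u, hsu.symm, hcn⟩
      exact hQI2 V G hN x y1 y2 y3 p p' q t w z Lz r hI c s l1 f l2 hc hcp
        ((hiff c hc).1 hcp) hcs hxs hor
    · have hcompl : ∀ c, Comp G x y2 c → G.Adj c p → ∀ s ∈ Att G x y1, G.Adj c s := by
        intro c hc hcp s hs
        by_contra h
        exact hb ⟨c, s, hc, hcp, hs, h⟩
      obtain ⟨c', hc', ⟨s, hs, hc's⟩, ⟨s', hs', hc's'⟩⟩ := h12.2.2
      have hc'p : ¬ G.Adj c' p := fun h => hc's' (hcompl c' hc' h s' hs')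
      have hc'p' : ¬ G.Adj c' p' := fun h => hc'p ((hiff c' hc').2 h)
      have hcp : G.Adj c p := hpc.symm
      have hcs := hcompl c hc hcp s hs
      have hts : G.Adj t s := hA2 s ⟨hs.1, c, hc, hcs.symm⟩
      obtain ⟨Lc, hLc⟩ := hPKX V G x y2 c c' hc hc'
      exact hQI7 V G hN x y1 y2 y3 p p' q t w z Lz r hI L c Lc c' s hL hLc hcp
        ((hiff c hc).1 hcp) hcs hc'p hc'p' hc's hts hs.1

end Pool.Agent.Helper64.FL
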