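import Pool.Agent.Helper64.FL.StC

/-! QC4: four neighbours of `z` in the clique configuration. -/

set_option autoImplicit false

namespace Pool.Agent.Helper64.FL

open Pool.Agent.Helper64.CT Pool.Agent.Helper64.DT
open Pool.Agent.Helper64.HG (Ovl Model Circ IC HellyCircle ChordModel)

theorem qc4_pth {V : Type} {G : SimpleGraph V} {a w : V} {l : List V} (h : Pth G a l w)
    (hne : a ≠ w) : IPt G (a :: (l ++ [w])) := by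
  rcases h with ⟨h, -⟩ | ⟨-, h⟩
  · exact absurd h hne
  · exact h

theorem qc4_tri {V : Type} {G : SimpleGraph V} {a w : V} {l : List V} (h : Pth G a l w)
    (he : a = w) : l = [] := by
  rcases h with ⟨-, h⟩ | ⟨h, -⟩
  · exact h
  · exact absurd he h

theorem qc4_last {V : Type} {G : SimpleGraph V} {w : V} : ∀ {l : List V}, IPt G (l ++ [w]) → w ∉ l
  | [], _ => by simp
  | x :: l, h => by
    rw [List.cons_append, IPt] at h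
    intro hm
    rcases List.mem_cons.1 hm with e | e
    · exact h.1 w (by simp) e.symm
    · exact qc4_last h.2.2.2 e

theorem qc4_int {V : Type} {G : SimpleGraph V} {a w : V} {l : List V} (h : Pth G a l w) :
    a ∉ l ∧ w ∉ l := by
  rcases h with ⟨-, h⟩ | ⟨-, h⟩
  · subst h; simp
  · rw [IPt] at h
    exact ⟨fun hm => h.1 a (by simp [hm]) rfl, qc4_last h.2.2.2⟩

theorem qc4_far {V : Type} {G : SimpleGraph V} {x u : V} (h : u ∈ Far G x) :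
    x ≠ u ∧ ¬ G.Adj x u := ⟨fun e => h.1 e.symm, h.2⟩

theorem qc4_far' {V : Type} {G : SimpleGraph V} {x u : V} (h : u ∈ Far G x) :
    u ≠ x ∧ ¬ G.Adj u x := ⟨h.1, fun e => h.2 e.symm⟩

theorem qc4_sym {V : Type} {G : SimpleGraph V} {x u : V} (h : x ≠ u ∧ ¬ G.Adj x u) :
    u ≠ x ∧ ¬ G.Adj u x := ⟨h.1.symm, fun e => h.2 e.symm⟩

theorem st_QC4 : ST_QC4 := by
  intro V G S hNo z y1 y2 y3 a la a' b lb b' m m' n c lc c' z1 z2 z3 h12 h13 h23 hT hA3 hB3 m3 m'3 zn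
    n1 n2 n3 hC hCz hC1 hC2 hN'
  obtain ⟨ala, a'la⟩ := qc4_int hT.A.pth
  obtain ⟨blb, b'lb⟩ := qc4_int hT.B.pth
  obtain ⟨clc, c'lc⟩ := qc4_int hC.pth
  have aA : a ∈ PV a la a' := Or.inl rfl
  have a'A : a' ∈ PV a la a' := Or.inr (Or.inr rfl)
  have lA : ∀ u ∈ la, u ∈ PV a la a' := fun u hu => Or.inr (Or.inl hu)
  have bB : b ∈ PV b lb b' := Or.inl rfl
  have b'B : b' ∈ PV b lb b' := Or.inr (Or.inr rfl)
  have lB : ∀ u ∈ lb, u ∈ PV b lb b' := fun u hu => Or.inr (Or.inl hu)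
  have cC : c ∈ PV c lc c' := Or.inl rfl
  have c'C : c' ∈ PV c lc c' := Or.inr (Or.inr rfl)
  have lC : ∀ u ∈ lc, u ∈ PV c lc c' := fun u hu => Or.inr (Or.inl hu)
  have nN : n ∈ {u | u = n ∨ u ∈ PV c lc c'} := Or.inl rfl
  have cN : c ∈ {u | u = n ∨ u ∈ PV c lc c'} := Or.inr cC
  have c'N : c' ∈ {u | u = n ∨ u ∈ PV c lc c'} := Or.inr c'C
  have mR : m ∈ {u | u = m ∨ u = m' ∨ u ∈ PV a la a' ∨ u ∈ PV b lb b'} := Or.inl rfl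
  have m'R : m' ∈ {u | u = m ∨ u = m' ∨ u ∈ PV a la a' ∨ u ∈ PV b lb b'} := Or.inr (Or.inl rfl)
  have aR : a ∈ {u | u = m ∨ u = m' ∨ u ∈ PV a la a' ∨ u ∈ PV b lb b'} := Or.inr (Or.inr (Or.inl aA))
  have a'R : a' ∈ {u | u = m ∨ u = m' ∨ u ∈ PV a la a' ∨ u ∈ PV b lb b'} :=
    Or.inr (Or.inr (Or.inl a'A))
  have bR : b ∈ {u | u = m ∨ u = m' ∨ u ∈ PV a la a' ∨ u ∈ PV b lb b'} := Or.inr (Or.inr (Or.inr bB))
  have b'R : b' ∈ {u | u = m ∨ u = m' ∨ u ∈ PV a la a' ∨ u ∈ PV b lb b'} :=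
    Or.inr (Or.inr (Or.inr b'B))
  have pa : a ≠ a' → IPt G (a :: (la ++ [a'])) := qc4_pth hT.A.pth
  have pb : b ≠ b' → IPt G (b :: (lb ++ [b'])) := qc4_pth hT.B.pth
  have pc : c ≠ c' → IPt G (c :: (lc ++ [c'])) := qc4_pth hC.pth
  have ta : a = a' → la = [] := qc4_tri hT.A.pth
  have tb : b = b' → lb = [] := qc4_tri hT.B.pth
  have tc : c = c' → lc = [] := qc4_tri hC.pth
  have sp : ([la, lb, lc] : List (List V)).Pairwise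
      (fun A B => ∀ x ∈ A, ∀ y ∈ B, x ≠ y ∧ ¬ G.Adj x y) := by
    simp only [List.pairwise_cons, List.mem_cons, List.not_mem_nil, or_false, forall_eq_or_imp,
      forall_eq, List.Pairwise.nil, and_true, false_imp_iff, implies_true]
    refine ⟨⟨?_, ?_⟩, ?_⟩
    · intro u hu v hv
      exact hT.AB u (lA u hu) v (lB v hv)
    · intro u hu v hv
      exact qc4_sym (hN' v (Or.inr (lC v hv)) u (Or.inr (Or.inr (Or.inl (lA u hu)))))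
    · intro u hu v hv
      exact qc4_sym (hN' v (Or.inr (lC v hv)) u (Or.inr (Or.inr (Or.inr (lB u hu)))))
  by_cases hmm : m = m'
  · subst hmm
    have e0_1 : G.Adj z y1 := z1
    have e0_2 : G.Adj z y2 := z2
    have e0_3 : G.Adj z y3 := z3
    have e1_2 : G.Adj y1 y2 := h12
    have e1_3 : G.Adj y1 y3 := h13
    have e2_3 : G.Adj y2 y3 := h23
    have e4_0 : G.Adj m z := (hT.zm).symm
    have e5_0 : G.Adj n z := (zn).symm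
    have e1_6 : G.Adj y1 a := hT.A.yb
    have e4_7 : G.Adj m a' := hT.A.mb
    have e2_8 : G.Adj y2 b := hT.B.yb
    have e4_9 : G.Adj m b' := hT.B.mb
    have e3_10 : G.Adj y3 c := hC.yb
    have e5_11 : G.Adj n c' := hC.mb
    have d4_1 : m ≠ y1 ∧ ¬ G.Adj m y1 := qc4_far' hT.mF.1
    have d4_2 : m ≠ y2 ∧ ¬ G.Adj m y2 := qc4_far' hT.mF.2
    have d4_3 : m ≠ y3 ∧ ¬ G.Adj m y3 := qc4_far' m3
    have d5_1 : n ≠ y1 ∧ ¬ G.Adj n y1 := qc4_far' n1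
    have d5_2 : n ≠ y2 ∧ ¬ G.Adj n y2 := qc4_far' n2
    have d5_3 : n ≠ y3 ∧ ¬ G.Adj n y3 := qc4_far' n3
    have d4_5 : m ≠ n ∧ ¬ G.Adj m n := qc4_sym (hN' n nN m mR)
    have d6_0 : a ≠ z ∧ ¬ G.Adj a z := qc4_far' (hT.Az aA)
    have d6_2 : a ≠ y2 ∧ ¬ G.Adj a y2 := qc4_far' (hT.Ay aA)
    have d6_3 : a ≠ y3 ∧ ¬ G.Adj a y3 := qc4_far' (hA3 aA)
    have d6_5 : a ≠ n ∧ ¬ G.Adj a n := qc4_sym (hN' n nN a aR)
    have d6_8 : a ≠ b ∧ ¬ G.Adj a b := hT.AB a aA b bB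
    have d6_9 : a ≠ b' ∧ ¬ G.Adj a b' := hT.AB a aA b' b'B
    have d6_10 : a ≠ c ∧ ¬ G.Adj a c := qc4_sym (hN' c cN a aR)
    have d6_11 : a ≠ c' ∧ ¬ G.Adj a c' := qc4_sym (hN' c' c'N a aR)
    have d7_0 : a' ≠ z ∧ ¬ G.Adj a' z := qc4_far' (hT.Az a'A)
    have d7_2 : a' ≠ y2 ∧ ¬ G.Adj a' y2 := qc4_far' (hT.Ay a'A)
    have d7_3 : a' ≠ y3 ∧ ¬ G.Adj a' y3 := qc4_far' (hA3 a'A)
    have d7_5 : a' ≠ n ∧ ¬ G.Adj a' n := qc4_sym (hN' n nN a' a'R)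
    have d7_8 : a' ≠ b ∧ ¬ G.Adj a' b := hT.AB a' a'A b bB
    have d7_9 : a' ≠ b' ∧ ¬ G.Adj a' b' := hT.AB a' a'A b' b'B
    have d7_10 : a' ≠ c ∧ ¬ G.Adj a' c := qc4_sym (hN' c cN a' a'R)
    have d7_11 : a' ≠ c' ∧ ¬ G.Adj a' c' := qc4_sym (hN' c' c'N a' a'R)
    have d8_0 : b ≠ z ∧ ¬ G.Adj b z := qc4_far' (hT.Bz bB)
    have d8_1 : b ≠ y1 ∧ ¬ G.Adj b y1 := qc4_far' (hT.Bx bB)
    have d8_3 : b ≠ y3 ∧ ¬ G.Adj b y3 := qc4_far' (hB3 bB)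
    have d8_5 : b ≠ n ∧ ¬ G.Adj b n := qc4_sym (hN' n nN b bR)
    have d8_10 : b ≠ c ∧ ¬ G.Adj b c := qc4_sym (hN' c cN b bR)
    have d8_11 : b ≠ c' ∧ ¬ G.Adj b c' := qc4_sym (hN' c' c'N b bR)
    have d9_0 : b' ≠ z ∧ ¬ G.Adj b' z := qc4_far' (hT.Bz b'B)
    have d9_1 : b' ≠ y1 ∧ ¬ G.Adj b' y1 := qc4_far' (hT.Bx b'B)
    have d9_3 : b' ≠ y3 ∧ ¬ G.Adj b' y3 := qc4_far' (hB3 b'B)
    have d9_5 : b' ≠ n ∧ ¬ G.Adj b' n := qc4_sym (hN' n nN b' b'R)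
    have d9_10 : b' ≠ c ∧ ¬ G.Adj b' c := qc4_sym (hN' c cN b' b'R)
    have d9_11 : b' ≠ c' ∧ ¬ G.Adj b' c' := qc4_sym (hN' c' c'N b' b'R)
    have d10_0 : c ≠ z ∧ ¬ G.Adj c z := qc4_far' (hCz cC)
    have d10_1 : c ≠ y1 ∧ ¬ G.Adj c y1 := qc4_far' (hC1 cC)
    have d10_2 : c ≠ y2 ∧ ¬ G.Adj c y2 := qc4_far' (hC2 cC)
    have d10_4 : c ≠ m ∧ ¬ G.Adj c m := hN' c cN m mR
    have d11_0 : c' ≠ z ∧ ¬ G.Adj c' z := qc4_far' (hCz c'C)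
    have d11_1 : c' ≠ y1 ∧ ¬ G.Adj c' y1 := qc4_far' (hC1 c'C)
    have d11_2 : c' ≠ y2 ∧ ¬ G.Adj c' y2 := qc4_far' (hC2 c'C)
    have d11_4 : c' ≠ m ∧ ¬ G.Adj c' m := hN' c' c'N m mR
    have n1_7 : y1 ≠ a' := fun h => (hT.A.ny a' a'A).1 h.symm
    have n4_6 : m ≠ a := fun h => (hT.A.nm a aA).1 h.symm
    have n2_9 : y2 ≠ b' := fun h => (hT.B.ny b' b'B).1 h.symm
    have n4_8 : m ≠ b := fun h => (hT.B.nm b bB).1 h.symm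
    have n3_11 : y3 ≠ c' := fun h => (hC.ny c' c'C).1 h.symm
    have n5_10 : n ≠ c := fun h => (hC.nm c cC).1 h.symm
    have c0 : a ≠ a' → y1 ≠ a' ∧ ¬ G.Adj y1 a' := fun h => ⟨n1_7, fun h' => h ((hT.A.ny a' a'A).2 h').symm⟩
    have c1 : a ≠ a' → m ≠ a ∧ ¬ G.Adj m a := fun h => ⟨n4_6, fun h' => h ((hT.A.nm a aA).2 h')⟩
    have c2 : b ≠ b' → y2 ≠ b' ∧ ¬ G.Adj y2 b' := fun h => ⟨n2_9, fun h' => h ((hT.B.ny b' b'B).2 h').symm⟩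
    have c3 : b ≠ b' → m ≠ b ∧ ¬ G.Adj m b := fun h => ⟨n4_8, fun h' => h ((hT.B.nm b bB).2 h')⟩
    have c4 : c ≠ c' → y3 ≠ c' ∧ ¬ G.Adj y3 c' := fun h => ⟨n3_11, fun h' => h ((hC.ny c' c'C).2 h').symm⟩
    have c5 : c ≠ c' → n ≠ c ∧ ¬ G.Adj n c := fun h => ⟨n5_10, fun h' => h ((hC.nm c cC).2 h')⟩
    have k0_0 : ∀ u ∈ la, z ≠ u ∧ ¬ G.Adj z u := fun u hu => qc4_far (hT.Az (lA u hu))
    have f0_0 : z ∉ la := fun h => (k0_0 z h).1 rfl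
    have g0_0 : ∀ u ∈ la, ¬ G.Adj z u := fun u hu => (k0_0 u hu).2
    have f0_1 : y1 ∉ la := fun h => (hT.A.ny y1 (lA _ h)).1 rfl
    have g0_1 : ∀ u ∈ la, ¬ G.Adj y1 u := fun u hu h => ala ((hT.A.ny u (lA u hu)).2 h ▸ hu)
    have k0_2 : ∀ u ∈ la, y2 ≠ u ∧ ¬ G.Adj y2 u := fun u hu => qc4_far (hT.Ay (lA u hu))
    have f0_2 : y2 ∉ la := fun h => (k0_2 y2 h).1 rfl
    have g0_2 : ∀ u ∈ la, ¬ G.Adj y2 u := fun u hu => (k0_2 u hu).2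
    have k0_3 : ∀ u ∈ la, y3 ≠ u ∧ ¬ G.Adj y3 u := fun u hu => qc4_far (hA3 (lA u hu))
    have f0_3 : y3 ∉ la := fun h => (k0_3 y3 h).1 rfl
    have g0_3 : ∀ u ∈ la, ¬ G.Adj y3 u := fun u hu => (k0_3 u hu).2
    have f0_4 : m ∉ la := fun h => (hT.A.nm m (lA _ h)).1 rfl
    have g0_4 : ∀ u ∈ la, ¬ G.Adj m u := fun u hu h => a'la ((hT.A.nm u (lA u hu)).2 h ▸ hu)
    have k0_5 : ∀ u ∈ la, n ≠ u ∧ ¬ G.Adj n u := fun u hu => hN' n nN u (Or.inr (Or.inr (Or.inl (lA u hu))))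
    have f0_5 : n ∉ la := fun h => (k0_5 n h).1 rfl
    have g0_5 : ∀ u ∈ la, ¬ G.Adj n u := fun u hu => (k0_5 u hu).2
    have k0_8 : ∀ u ∈ la, b ≠ u ∧ ¬ G.Adj b u := fun u hu => qc4_sym (hT.AB u (lA u hu) b bB)
    have f0_8 : b ∉ la := fun h => (k0_8 b h).1 rfl
    have g0_8 : ∀ u ∈ la, ¬ G.Adj b u := fun u hu => (k0_8 u hu).2
    have k0_9 : ∀ u ∈ la, b' ≠ u ∧ ¬ G.Adj b' u := fun u hu => qc4_sym (hT.AB u (lA u hu) b' b'B)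
    have f0_9 : b' ∉ la := fun h => (k0_9 b' h).1 rfl
    have g0_9 : ∀ u ∈ la, ¬ G.Adj b' u := fun u hu => (k0_9 u hu).2
    have k0_10 : ∀ u ∈ la, c ≠ u ∧ ¬ G.Adj c u := fun u hu => hN' c cN u (Or.inr (Or.inr (Or.inl (lA u hu))))
    have f0_10 : c ∉ la := fun h => (k0_10 c h).1 rfl
    have g0_10 : ∀ u ∈ la, ¬ G.Adj c u := fun u hu => (k0_10 u hu).2
    have k0_11 : ∀ u ∈ la, c' ≠ u ∧ ¬ G.Adj c' u := fun u hu => hN' c' c'N u (Or.inr (Or.inr (Or.inl (lA u hu))))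
    have f0_11 : c' ∉ la := fun h => (k0_11 c' h).1 rfl
    have g0_11 : ∀ u ∈ la, ¬ G.Adj c' u := fun u hu => (k0_11 u hu).2
    have k1_0 : ∀ u ∈ lb, z ≠ u ∧ ¬ G.Adj z u := fun u hu => qc4_far (hT.Bz (lB u hu))
    have f1_0 : z ∉ lb := fun h => (k1_0 z h).1 rfl
    have g1_0 : ∀ u ∈ lb, ¬ G.Adj z u := fun u hu => (k1_0 u hu).2
    have k1_1 : ∀ u ∈ lb, y1 ≠ u ∧ ¬ G.Adj y1 u := fun u hu => qc4_far (hT.Bx (lB u hu))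
    have f1_1 : y1 ∉ lb := fun h => (k1_1 y1 h).1 rfl
    have g1_1 : ∀ u ∈ lb, ¬ G.Adj y1 u := fun u hu => (k1_1 u hu).2
    have f1_2 : y2 ∉ lb := fun h => (hT.B.ny y2 (lB _ h)).1 rfl
    have g1_2 : ∀ u ∈ lb, ¬ G.Adj y2 u := fun u hu h => blb ((hT.B.ny u (lB u hu)).2 h ▸ hu)
    have k1_3 : ∀ u ∈ lb, y3 ≠ u ∧ ¬ G.Adj y3 u := fun u hu => qc4_far (hB3 (lB u hu))
    have f1_3 : y3 ∉ lb := fun h => (k1_3 y3 h).1 rfl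
    have g1_3 : ∀ u ∈ lb, ¬ G.Adj y3 u := fun u hu => (k1_3 u hu).2
    have f1_4 : m ∉ lb := fun h => (hT.B.nm m (lB _ h)).1 rfl
    have g1_4 : ∀ u ∈ lb, ¬ G.Adj m u := fun u hu h => b'lb ((hT.B.nm u (lB u hu)).2 h ▸ hu)
    have k1_5 : ∀ u ∈ lb, n ≠ u ∧ ¬ G.Adj n u := fun u hu => hN' n nN u (Or.inr (Or.inr (Or.inr (lB u hu))))
    have f1_5 : n ∉ lb := fun h => (k1_5 n h).1 rfl
    have g1_5 : ∀ u ∈ lb, ¬ G.Adj n u := fun u hu => (k1_5 u hu).2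
    have k1_6 : ∀ u ∈ lb, a ≠ u ∧ ¬ G.Adj a u := fun u hu => hT.AB a aA u (lB u hu)
    have f1_6 : a ∉ lb := fun h => (k1_6 a h).1 rfl
    have g1_6 : ∀ u ∈ lb, ¬ G.Adj a u := fun u hu => (k1_6 u hu).2
    have k1_7 : ∀ u ∈ lb, a' ≠ u ∧ ¬ G.Adj a' u := fun u hu => hT.AB a' a'A u (lB u hu)
    have f1_7 : a' ∉ lb := fun h => (k1_7 a' h).1 rfl
    have g1_7 : ∀ u ∈ lb, ¬ G.Adj a' u := fun u hu => (k1_7 u hu).2
    have k1_10 : ∀ u ∈ lb, c ≠ u ∧ ¬ G.Adj c u := fun u hu => hN' c cN u (Or.inr (Or.inr (Or.inr (lB u hu))))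
    have f1_10 : c ∉ lb := fun h => (k1_10 c h).1 rfl
    have g1_10 : ∀ u ∈ lb, ¬ G.Adj c u := fun u hu => (k1_10 u hu).2
    have k1_11 : ∀ u ∈ lb, c' ≠ u ∧ ¬ G.Adj c' u := fun u hu => hN' c' c'N u (Or.inr (Or.inr (Or.inr (lB u hu))))
    have f1_11 : c' ∉ lb := fun h => (k1_11 c' h).1 rfl
    have g1_11 : ∀ u ∈ lb, ¬ G.Adj c' u := fun u hu => (k1_11 u hu).2
    have k2_0 : ∀ u ∈ lc, z ≠ u ∧ ¬ G.Adj z u := fun u hu => qc4_far (hCz (lC u hu))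
    have f2_0 : z ∉ lc := fun h => (k2_0 z h).1 rfl
    have g2_0 : ∀ u ∈ lc, ¬ G.Adj z u := fun u hu => (k2_0 u hu).2
    have k2_1 : ∀ u ∈ lc, y1 ≠ u ∧ ¬ G.Adj y1 u := fun u hu => qc4_far (hC1 (lC u hu))
    have f2_1 : y1 ∉ lc := fun h => (k2_1 y1 h).1 rfl
    have g2_1 : ∀ u ∈ lc, ¬ G.Adj y1 u := fun u hu => (k2_1 u hu).2
    have k2_2 : ∀ u ∈ lc, y2 ≠ u ∧ ¬ G.Adj y2 u := fun u hu => qc4_far (hC2 (lC u hu))
    have f2_2 : y2 ∉ lc := fun h => (k2_2 y2 h).1 rfl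
    have g2_2 : ∀ u ∈ lc, ¬ G.Adj y2 u := fun u hu => (k2_2 u hu).2
    have f2_3 : y3 ∉ lc := fun h => (hC.ny y3 (lC _ h)).1 rfl
    have g2_3 : ∀ u ∈ lc, ¬ G.Adj y3 u := fun u hu h => clc ((hC.ny u (lC u hu)).2 h ▸ hu)
    have k2_4 : ∀ u ∈ lc, m ≠ u ∧ ¬ G.Adj m u := fun u hu => qc4_sym (hN' u (Or.inr (lC u hu)) m mR)
    have f2_4 : m ∉ lc := fun h => (k2_4 m h).1 rfl
    have g2_4 : ∀ u ∈ lc, ¬ G.Adj m u := fun u hu => (k2_4 u hu).2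
    have f2_5 : n ∉ lc := fun h => (hC.nm n (lC _ h)).1 rfl
    have g2_5 : ∀ u ∈ lc, ¬ G.Adj n u := fun u hu h => c'lc ((hC.nm u (lC u hu)).2 h ▸ hu)
    have k2_6 : ∀ u ∈ lc, a ≠ u ∧ ¬ G.Adj a u := fun u hu => qc4_sym (hN' u (Or.inr (lC u hu)) a aR)
    have f2_6 : a ∉ lc := fun h => (k2_6 a h).1 rfl
    have g2_6 : ∀ u ∈ lc, ¬ G.Adj a u := fun u hu => (k2_6 u hu).2
    have k2_7 : ∀ u ∈ lc, a' ≠ u ∧ ¬ G.Adj a' u := fun u hu => qc4_sym (hN' u (Or.inr (lC u hu)) a' a'R)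
    have f2_7 : a' ∉ lc := fun h => (k2_7 a' h).1 rfl
    have g2_7 : ∀ u ∈ lc, ¬ G.Adj a' u := fun u hu => (k2_7 u hu).2
    have k2_8 : ∀ u ∈ lc, b ≠ u ∧ ¬ G.Adj b u := fun u hu => qc4_sym (hN' u (Or.inr (lC u hu)) b bR)
    have f2_8 : b ∉ lc := fun h => (k2_8 b h).1 rfl
    have g2_8 : ∀ u ∈ lc, ¬ G.Adj b u := fun u hu => (k2_8 u hu).2
    have k2_9 : ∀ u ∈ lc, b' ≠ u ∧ ¬ G.Adj b' u := fun u hu => qc4_sym (hN' u (Or.inr (lC u hu)) b' b'R)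
    have f2_9 : b' ∉ lc := fun h => (k2_9 b' h).1 rfl
    have g2_9 : ∀ u ∈ lc, ¬ G.Adj b' u := fun u hu => (k2_9 u hu).2
    refine hNo preC4a (by simp [preCs]) (fun i => ([z, y1, y2, y3, m, n, a, a', b, b', c, c'] : List V).getD i z)
      [la, lb, lc] ⟨?_, ?_, ?_, ?_, ?_, rfl, ?_, ?_, ?_, ?_, sp⟩
    · intro v hv; fin_cases hv <;> assumption
    · intro v hv; fin_cases hv <;> assumption
    · intro v hv; fin_cases hv <;> assumption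
    · intro v hv
      fin_cases hv
      · intro h; exact c0 (h (6, 7) (by simp))
      · intro h; exact c1 (h (6, 7) (by simp))
      · intro h; exact c2 (h (8, 9) (by simp))
      · intro h; exact c3 (h (8, 9) (by simp))
      · intro h; exact c4 (h (10, 11) (by simp))
      · intro h; exact c5 (h (10, 11) (by simp))
    · intro v hv; exact absurd hv (by simp [preC4a])
    · intro v hv; fin_cases hv <;> assumption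
    · intro v hv; fin_cases hv <;> assumption
    · intro v hv i hi
      have hi' : i < 12 := hi
      fin_cases hv <;> interval_cases i <;> assumption
    · intro v hv i hi hU k1 k2
      have hi' : i < 12 := hi
      fin_cases hv <;> interval_cases i <;>
        first
        | assumption
        | exact absurd rfl k1
        | exact absurd rfl k2
  · obtain ⟨amm, aFm', bFm⟩ : G.Adj m m' ∧ PV a la a' ⊆ Far G m' ∧ PV b lb b' ⊆ Far G m := by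
      rcases hT.mm with h | h
      · exact absurd h hmm
      · exact h
    have e0_1 : G.Adj z y1 := z1
    have e0_2 : G.Adj z y2 := z2
    have e0_3 : G.Adj z y3 := z3
    have e1_2 : G.Adj y1 y2 := h12
    have e1_3 : G.Adj y1 y3 := h13
    have e2_3 : G.Adj y2 y3 := h23
    have e4_0 : G.Adj m z := (hT.zm).symm
    have e6_0 : G.Adj n z := (zn).symm
    have e5_0 : G.Adj m' z := (hT.zm').symm
    have e4_5 : G.Adj m m' := amm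
    have e1_7 : G.Adj y1 a := hT.A.yb
    have e4_8 : G.Adj m a' := hT.A.mb
    have e2_9 : G.Adj y2 b := hT.B.yb
    have e5_10 : G.Adj m' b' := hT.B.mb
    have e3_11 : G.Adj y3 c := hC.yb
    have e6_12 : G.Adj n c' := hC.mb
    have d4_1 : m ≠ y1 ∧ ¬ G.Adj m y1 := qc4_far' hT.mF.1
    have d4_2 : m ≠ y2 ∧ ¬ G.Adj m y2 := qc4_far' hT.mF.2
    have d4_3 : m ≠ y3 ∧ ¬ G.Adj m y3 := qc4_far' m3
    have d6_1 : n ≠ y1 ∧ ¬ G.Adj n y1 := qc4_far' n1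
    have d6_2 : n ≠ y2 ∧ ¬ G.Adj n y2 := qc4_far' n2
    have d6_3 : n ≠ y3 ∧ ¬ G.Adj n y3 := qc4_far' n3
    have d5_1 : m' ≠ y1 ∧ ¬ G.Adj m' y1 := qc4_far' hT.mF'.1
    have d5_2 : m' ≠ y2 ∧ ¬ G.Adj m' y2 := qc4_far' hT.mF'.2
    have d5_3 : m' ≠ y3 ∧ ¬ G.Adj m' y3 := qc4_far' m'3
    have d4_6 : m ≠ n ∧ ¬ G.Adj m n := qc4_sym (hN' n nN m mR)
    have d5_6 : m' ≠ n ∧ ¬ G.Adj m' n := qc4_sym (hN' n nN m' m'R)
    have d7_0 : a ≠ z ∧ ¬ G.Adj a z := qc4_far' (hT.Az aA)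
    have d7_2 : a ≠ y2 ∧ ¬ G.Adj a y2 := qc4_far' (hT.Ay aA)
    have d7_3 : a ≠ y3 ∧ ¬ G.Adj a y3 := qc4_far' (hA3 aA)
    have d7_6 : a ≠ n ∧ ¬ G.Adj a n := qc4_sym (hN' n nN a aR)
    have d7_5 : a ≠ m' ∧ ¬ G.Adj a m' := qc4_far' (aFm' aA)
    have d7_9 : a ≠ b ∧ ¬ G.Adj a b := hT.AB a aA b bB
    have d7_10 : a ≠ b' ∧ ¬ G.Adj a b' := hT.AB a aA b' b'B
    have d7_11 : a ≠ c ∧ ¬ G.Adj a c := qc4_sym (hN' c cN a aR)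
    have d7_12 : a ≠ c' ∧ ¬ G.Adj a c' := qc4_sym (hN' c' c'N a aR)
    have d8_0 : a' ≠ z ∧ ¬ G.Adj a' z := qc4_far' (hT.Az a'A)
    have d8_2 : a' ≠ y2 ∧ ¬ G.Adj a' y2 := qc4_far' (hT.Ay a'A)
    have d8_3 : a' ≠ y3 ∧ ¬ G.Adj a' y3 := qc4_far' (hA3 a'A)
    have d8_6 : a' ≠ n ∧ ¬ G.Adj a' n := qc4_sym (hN' n nN a' a'R)
    have d8_5 : a' ≠ m' ∧ ¬ G.Adj a' m' := qc4_far' (aFm' a'A)
    have d8_9 : a' ≠ b ∧ ¬ G.Adj a' b := hT.AB a' a'A b bB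
    have d8_10 : a' ≠ b' ∧ ¬ G.Adj a' b' := hT.AB a' a'A b' b'B
    have d8_11 : a' ≠ c ∧ ¬ G.Adj a' c := qc4_sym (hN' c cN a' a'R)
    have d8_12 : a' ≠ c' ∧ ¬ G.Adj a' c' := qc4_sym (hN' c' c'N a' a'R)
    have d9_0 : b ≠ z ∧ ¬ G.Adj b z := qc4_far' (hT.Bz bB)
    have d9_1 : b ≠ y1 ∧ ¬ G.Adj b y1 := qc4_far' (hT.Bx bB)
    have d9_3 : b ≠ y3 ∧ ¬ G.Adj b y3 := qc4_far' (hB3 bB)
    have d9_6 : b ≠ n ∧ ¬ G.Adj b n := qc4_sym (hN' n nN b bR)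
    have d9_4 : b ≠ m ∧ ¬ G.Adj b m := qc4_far' (bFm bB)
    have d9_11 : b ≠ c ∧ ¬ G.Adj b c := qc4_sym (hN' c cN b bR)
    have d9_12 : b ≠ c' ∧ ¬ G.Adj b c' := qc4_sym (hN' c' c'N b bR)
    have d10_0 : b' ≠ z ∧ ¬ G.Adj b' z := qc4_far' (hT.Bz b'B)
    have d10_1 : b' ≠ y1 ∧ ¬ G.Adj b' y1 := qc4_far' (hT.Bx b'B)
    have d10_3 : b' ≠ y3 ∧ ¬ G.Adj b' y3 := qc4_far' (hB3 b'B)
    have d10_6 : b' ≠ n ∧ ¬ G.Adj b' n := qc4_sym (hN' n nN b' b'R)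
    have d10_4 : b' ≠ m ∧ ¬ G.Adj b' m := qc4_far' (bFm b'B)
    have d10_11 : b' ≠ c ∧ ¬ G.Adj b' c := qc4_sym (hN' c cN b' b'R)
    have d10_12 : b' ≠ c' ∧ ¬ G.Adj b' c' := qc4_sym (hN' c' c'N b' b'R)
    have d11_0 : c ≠ z ∧ ¬ G.Adj c z := qc4_far' (hCz cC)
    have d11_1 : c ≠ y1 ∧ ¬ G.Adj c y1 := qc4_far' (hC1 cC)
    have d11_2 : c ≠ y2 ∧ ¬ G.Adj c y2 := qc4_far' (hC2 cC)
    have d11_4 : c ≠ m ∧ ¬ G.Adj c m := hN' c cN m mR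
    have d11_5 : c ≠ m' ∧ ¬ G.Adj c m' := hN' c cN m' m'R
    have d12_0 : c' ≠ z ∧ ¬ G.Adj c' z := qc4_far' (hCz c'C)
    have d12_1 : c' ≠ y1 ∧ ¬ G.Adj c' y1 := qc4_far' (hC1 c'C)
    have d12_2 : c' ≠ y2 ∧ ¬ G.Adj c' y2 := qc4_far' (hC2 c'C)
    have d12_4 : c' ≠ m ∧ ¬ G.Adj c' m := hN' c' c'N m mR
    have d12_5 : c' ≠ m' ∧ ¬ G.Adj c' m' := hN' c' c'N m' m'R
    have n1_8 : y1 ≠ a' := fun h => (hT.A.ny a' a'A).1 h.symm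
    have n4_7 : m ≠ a := fun h => (hT.A.nm a aA).1 h.symm
    have n2_10 : y2 ≠ b' := fun h => (hT.B.ny b' b'B).1 h.symm
    have n5_9 : m' ≠ b := fun h => (hT.B.nm b bB).1 h.symm
    have n3_12 : y3 ≠ c' := fun h => (hC.ny c' c'C).1 h.symm
    have n6_11 : n ≠ c := fun h => (hC.nm c cC).1 h.symm
    have c0 : a ≠ a' → y1 ≠ a' ∧ ¬ G.Adj y1 a' := fun h => ⟨n1_8, fun h' => h ((hT.A.ny a' a'A).2 h').symm⟩
    have c1 : a ≠ a' → m ≠ a ∧ ¬ G.Adj m a := fun h => ⟨n4_7, fun h' => h ((hT.A.nm a aA).2 h')⟩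
    have c2 : b ≠ b' → y2 ≠ b' ∧ ¬ G.Adj y2 b' := fun h => ⟨n2_10, fun h' => h ((hT.B.ny b' b'B).2 h').symm⟩
    have c3 : b ≠ b' → m' ≠ b ∧ ¬ G.Adj m' b := fun h => ⟨n5_9, fun h' => h ((hT.B.nm b bB).2 h')⟩
    have c4 : c ≠ c' → y3 ≠ c' ∧ ¬ G.Adj y3 c' := fun h => ⟨n3_12, fun h' => h ((hC.ny c' c'C).2 h').symm⟩
    have c5 : c ≠ c' → n ≠ c ∧ ¬ G.Adj n c := fun h => ⟨n6_11, fun h' => h ((hC.nm c cC).2 h')⟩
    have k0_0 : ∀ u ∈ la, z ≠ u ∧ ¬ G.Adj z u := fun u hu => qc4_far (hT.Az (lA u hu))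
    have f0_0 : z ∉ la := fun h => (k0_0 z h).1 rfl
    have g0_0 : ∀ u ∈ la, ¬ G.Adj z u := fun u hu => (k0_0 u hu).2
    have f0_1 : y1 ∉ la := fun h => (hT.A.ny y1 (lA _ h)).1 rfl
    have g0_1 : ∀ u ∈ la, ¬ G.Adj y1 u := fun u hu h => ala ((hT.A.ny u (lA u hu)).2 h ▸ hu)
    have k0_2 : ∀ u ∈ la, y2 ≠ u ∧ ¬ G.Adj y2 u := fun u hu => qc4_far (hT.Ay (lA u hu))
    have f0_2 : y2 ∉ la := fun h => (k0_2 y2 h).1 rfl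
    have g0_2 : ∀ u ∈ la, ¬ G.Adj y2 u := fun u hu => (k0_2 u hu).2
    have k0_3 : ∀ u ∈ la, y3 ≠ u ∧ ¬ G.Adj y3 u := fun u hu => qc4_far (hA3 (lA u hu))
    have f0_3 : y3 ∉ la := fun h => (k0_3 y3 h).1 rfl
    have g0_3 : ∀ u ∈ la, ¬ G.Adj y3 u := fun u hu => (k0_3 u hu).2
    have f0_4 : m ∉ la := fun h => (hT.A.nm m (lA _ h)).1 rfl
    have g0_4 : ∀ u ∈ la, ¬ G.Adj m u := fun u hu h => a'la ((hT.A.nm u (lA u hu)).2 h ▸ hu)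
    have k0_5 : ∀ u ∈ la, m' ≠ u ∧ ¬ G.Adj m' u := fun u hu => qc4_far (aFm' (lA u hu))
    have f0_5 : m' ∉ la := fun h => (k0_5 m' h).1 rfl
    have g0_5 : ∀ u ∈ la, ¬ G.Adj m' u := fun u hu => (k0_5 u hu).2
    have k0_6 : ∀ u ∈ la, n ≠ u ∧ ¬ G.Adj n u := fun u hu => hN' n nN u (Or.inr (Or.inr (Or.inl (lA u hu))))
    have f0_6 : n ∉ la := fun h => (k0_6 n h).1 rfl
    have g0_6 : ∀ u ∈ la, ¬ G.Adj n u := fun u hu => (k0_6 u hu).2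
    have k0_9 : ∀ u ∈ la, b ≠ u ∧ ¬ G.Adj b u := fun u hu => qc4_sym (hT.AB u (lA u hu) b bB)
    have f0_9 : b ∉ la := fun h => (k0_9 b h).1 rfl
    have g0_9 : ∀ u ∈ la, ¬ G.Adj b u := fun u hu => (k0_9 u hu).2
    have k0_10 : ∀ u ∈ la, b' ≠ u ∧ ¬ G.Adj b' u := fun u hu => qc4_sym (hT.AB u (lA u hu) b' b'B)
    have f0_10 : b' ∉ la := fun h => (k0_10 b' h).1 rfl
    have g0_10 : ∀ u ∈ la, ¬ G.Adj b' u := fun u hu => (k0_10 u hu).2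
    have k0_11 : ∀ u ∈ la, c ≠ u ∧ ¬ G.Adj c u := fun u hu => hN' c cN u (Or.inr (Or.inr (Or.inl (lA u hu))))
    have f0_11 : c ∉ la := fun h => (k0_11 c h).1 rfl
    have g0_11 : ∀ u ∈ la, ¬ G.Adj c u := fun u hu => (k0_11 u hu).2
    have k0_12 : ∀ u ∈ la, c' ≠ u ∧ ¬ G.Adj c' u := fun u hu => hN' c' c'N u (Or.inr (Or.inr (Or.inl (lA u hu))))
    have f0_12 : c' ∉ la := fun h => (k0_12 c' h).1 rfl
    have g0_12 : ∀ u ∈ la, ¬ G.Adj c' u := fun u hu => (k0_12 u hu).2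
    have k1_0 : ∀ u ∈ lb, z ≠ u ∧ ¬ G.Adj z u := fun u hu => qc4_far (hT.Bz (lB u hu))
    have f1_0 : z ∉ lb := fun h => (k1_0 z h).1 rfl
    have g1_0 : ∀ u ∈ lb, ¬ G.Adj z u := fun u hu => (k1_0 u hu).2
    have k1_1 : ∀ u ∈ lb, y1 ≠ u ∧ ¬ G.Adj y1 u := fun u hu => qc4_far (hT.Bx (lB u hu))
    have f1_1 : y1 ∉ lb := fun h => (k1_1 y1 h).1 rfl
    have g1_1 : ∀ u ∈ lb, ¬ G.Adj y1 u := fun u hu => (k1_1 u hu).2
    have f1_2 : y2 ∉ lb := fun h => (hT.B.ny y2 (lB _ h)).1 rfl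
    have g1_2 : ∀ u ∈ lb, ¬ G.Adj y2 u := fun u hu h => blb ((hT.B.ny u (lB u hu)).2 h ▸ hu)
    have k1_3 : ∀ u ∈ lb, y3 ≠ u ∧ ¬ G.Adj y3 u := fun u hu => qc4_far (hB3 (lB u hu))
    have f1_3 : y3 ∉ lb := fun h => (k1_3 y3 h).1 rfl
    have g1_3 : ∀ u ∈ lb, ¬ G.Adj y3 u := fun u hu => (k1_3 u hu).2
    have k1_4 : ∀ u ∈ lb, m ≠ u ∧ ¬ G.Adj m u := fun u hu => qc4_far (bFm (lB u hu))
    have f1_4 : m ∉ lb := fun h => (k1_4 m h).1 rfl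
    have g1_4 : ∀ u ∈ lb, ¬ G.Adj m u := fun u hu => (k1_4 u hu).2
    have f1_5 : m' ∉ lb := fun h => (hT.B.nm m' (lB _ h)).1 rfl
    have g1_5 : ∀ u ∈ lb, ¬ G.Adj m' u := fun u hu h => b'lb ((hT.B.nm u (lB u hu)).2 h ▸ hu)
    have k1_6 : ∀ u ∈ lb, n ≠ u ∧ ¬ G.Adj n u := fun u hu => hN' n nN u (Or.inr (Or.inr (Or.inr (lB u hu))))
    have f1_6 : n ∉ lb := fun h => (k1_6 n h).1 rfl
    have g1_6 : ∀ u ∈ lb, ¬ G.Adj n u := fun u hu => (k1_6 u hu).2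
    have k1_7 : ∀ u ∈ lb, a ≠ u ∧ ¬ G.Adj a u := fun u hu => hT.AB a aA u (lB u hu)
    have f1_7 : a ∉ lb := fun h => (k1_7 a h).1 rfl
    have g1_7 : ∀ u ∈ lb, ¬ G.Adj a u := fun u hu => (k1_7 u hu).2
    have k1_8 : ∀ u ∈ lb, a' ≠ u ∧ ¬ G.Adj a' u := fun u hu => hT.AB a' a'A u (lB u hu)
    have f1_8 : a' ∉ lb := fun h => (k1_8 a' h).1 rfl
    have g1_8 : ∀ u ∈ lb, ¬ G.Adj a' u := fun u hu => (k1_8 u hu).2
    have k1_11 : ∀ u ∈ lb, c ≠ u ∧ ¬ G.Adj c u := fun u hu => hN' c cN u (Or.inr (Or.inr (Or.inr (lB u hu))))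
    have f1_11 : c ∉ lb := fun h => (k1_11 c h).1 rfl
    have g1_11 : ∀ u ∈ lb, ¬ G.Adj c u := fun u hu => (k1_11 u hu).2
    have k1_12 : ∀ u ∈ lb, c' ≠ u ∧ ¬ G.Adj c' u := fun u hu => hN' c' c'N u (Or.inr (Or.inr (Or.inr (lB u hu))))
    have f1_12 : c' ∉ lb := fun h => (k1_12 c' h).1 rfl
    have g1_12 : ∀ u ∈ lb, ¬ G.Adj c' u := fun u hu => (k1_12 u hu).2
    have k2_0 : ∀ u ∈ lc, z ≠ u ∧ ¬ G.Adj z u := fun u hu => qc4_far (hCz (lC u hu))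
    have f2_0 : z ∉ lc := fun h => (k2_0 z h).1 rfl
    have g2_0 : ∀ u ∈ lc, ¬ G.Adj z u := fun u hu => (k2_0 u hu).2
    have k2_1 : ∀ u ∈ lc, y1 ≠ u ∧ ¬ G.Adj y1 u := fun u hu => qc4_far (hC1 (lC u hu))
    have f2_1 : y1 ∉ lc := fun h => (k2_1 y1 h).1 rfl
    have g2_1 : ∀ u ∈ lc, ¬ G.Adj y1 u := fun u hu => (k2_1 u hu).2
    have k2_2 : ∀ u ∈ lc, y2 ≠ u ∧ ¬ G.Adj y2 u := fun u hu => qc4_far (hC2 (lC u hu))
    have f2_2 : y2 ∉ lc := fun h => (k2_2 y2 h).1 rfl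
    have g2_2 : ∀ u ∈ lc, ¬ G.Adj y2 u := fun u hu => (k2_2 u hu).2
    have f2_3 : y3 ∉ lc := fun h => (hC.ny y3 (lC _ h)).1 rfl
    have g2_3 : ∀ u ∈ lc, ¬ G.Adj y3 u := fun u hu h => clc ((hC.ny u (lC u hu)).2 h ▸ hu)
    have k2_4 : ∀ u ∈ lc, m ≠ u ∧ ¬ G.Adj m u := fun u hu => qc4_sym (hN' u (Or.inr (lC u hu)) m mR)
    have f2_4 : m ∉ lc := fun h => (k2_4 m h).1 rfl
    have g2_4 : ∀ u ∈ lc, ¬ G.Adj m u := fun u hu => (k2_4 u hu).2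
    have k2_5 : ∀ u ∈ lc, m' ≠ u ∧ ¬ G.Adj m' u := fun u hu => qc4_sym (hN' u (Or.inr (lC u hu)) m' m'R)
    have f2_5 : m' ∉ lc := fun h => (k2_5 m' h).1 rfl
    have g2_5 : ∀ u ∈ lc, ¬ G.Adj m' u := fun u hu => (k2_5 u hu).2
    have f2_6 : n ∉ lc := fun h => (hC.nm n (lC _ h)).1 rfl
    have g2_6 : ∀ u ∈ lc, ¬ G.Adj n u := fun u hu h => c'lc ((hC.nm u (lC u hu)).2 h ▸ hu)
    have k2_7 : ∀ u ∈ lc, a ≠ u ∧ ¬ G.Adj a u := fun u hu => qc4_sym (hN' u (Or.inr (lC u hu)) a aR)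
    have f2_7 : a ∉ lc := fun h => (k2_7 a h).1 rfl
    have g2_7 : ∀ u ∈ lc, ¬ G.Adj a u := fun u hu => (k2_7 u hu).2
    have k2_8 : ∀ u ∈ lc, a' ≠ u ∧ ¬ G.Adj a' u := fun u hu => qc4_sym (hN' u (Or.inr (lC u hu)) a' a'R)
    have f2_8 : a' ∉ lc := fun h => (k2_8 a' h).1 rfl
    have g2_8 : ∀ u ∈ lc, ¬ G.Adj a' u := fun u hu => (k2_8 u hu).2
    have k2_9 : ∀ u ∈ lc, b ≠ u ∧ ¬ G.Adj b u := fun u hu => qc4_sym (hN' u (Or.inr (lC u hu)) b bR)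
    have f2_9 : b ∉ lc := fun h => (k2_9 b h).1 rfl
    have g2_9 : ∀ u ∈ lc, ¬ G.Adj b u := fun u hu => (k2_9 u hu).2
    have k2_10 : ∀ u ∈ lc, b' ≠ u ∧ ¬ G.Adj b' u := fun u hu => qc4_sym (hN' u (Or.inr (lC u hu)) b' b'R)
    have f2_10 : b' ∉ lc := fun h => (k2_10 b' h).1 rfl
    have g2_10 : ∀ u ∈ lc, ¬ G.Adj b' u := fun u hu => (k2_10 u hu).2
    refine hNo preC4b (by simp [preCs]) (fun i => ([z, y1, y2, y3, m, m', n, a, a', b, b', c, c'] : List V).getD i z)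
      [la, lb, lc] ⟨?_, ?_, ?_, ?_, ?_, rfl, ?_, ?_, ?_, ?_, sp⟩
    · intro v hv; fin_cases hv <;> assumption
    · intro v hv; fin_cases hv <;> assumption
    · intro v hv; fin_cases hv <;> assumption
    · intro v hv
      fin_cases hv
      · intro h; exact c0 (h (7, 8) (by simp))
      · intro h; exact c1 (h (7, 8) (by simp))
      · intro h; exact c2 (h (9, 10) (by simp))
      · intro h; exact c3 (h (9, 10) (by simp))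
      · intro h; exact c4 (h (11, 12) (by simp))
      · intro h; exact c5 (h (11, 12) (by simp))
    · intro v hv; exact absurd hv (by simp [preC4b])
    · intro v hv; fin_cases hv <;> assumption
    · intro v hv; fin_cases hv <;> assumption
    · intro v hv i hi
      have hi' : i < 13 := hi
      fin_cases hv <;> interval_cases i <;> assumption
    · intro v hv i hi hU k1 k2
      have hi' : i < 13 := hi
      fin_cases hv <;> interval_cases i <;>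
        first
        | assumption
        | exact absurd rfl k1
        | exact absurd rfl k2

end Pool.Agent.Helper64.FL
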