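import Pool.Agent.Helper64.FL.Pre

/-! MP_866009_co: representatives of coincidence patterns. -/

set_option autoImplicit false

namespace Pool.Agent.Helper64.FL

theorem rps_nth_repl (u v : ℕ) : ∀ (r : List ℕ) (k : ℕ), k < r.length →
    nth (repl u v r) k = if nth r k = u then v else nth r k := by
  intro r
  induction r with
  | nil => intro k hk; simp at hk
  | cons x l ih =>
    intro k hk
    cases k with
    | zero =>
      show (bif Nat.beq x u then v else x) = if x = u then v else x
      by_cases h : x = u
      · subst h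
        simp
      · have : Nat.beq x u = false := by
          rw [Bool.eq_false_iff]
          intro hc
          exact h (Nat.eq_of_beq_eq_true hc)
        simp [h, this]
    | succ k =>
      show nth (repl u v l) k = if nth l k = u then v else nth l k
      exact ih k (by simpa using hk)

theorem rps_len_repl (u v : ℕ) : ∀ r : List ℕ, (repl u v r).length = r.length := by
  intro r
  induction r with
  | nil => rfl
  | cons x l ih => simp [repl, ih]

theorem rps_len_idl : ∀ n : ℕ, (idl n).length = n := by
  intro n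
  induction n with
  | zero => rfl
  | succ n ih => simp [idl, ih]

theorem rps_nth_append (l1 l2 : List ℕ) : ∀ k : ℕ, (k < l1.length → nth (l1 ++ l2) k = nth l1 k) ∧
    nth (l1 ++ l2) (l1.length + k) = nth l2 k := by
  induction l1 with
  | nil => intro k; simp
  | cons x l ih =>
    intro k
    constructor
    · intro hk
      cases k with
      | zero => rfl
      | succ k =>
        show nth (l ++ l2) k = nth l k
        exact (ih k).1 (by simpa using hk)
    · have : (x :: l).length + k = (l.length + k) + 1 := by simp; omega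
      rw [this]
      show nth (l ++ l2) (l.length + k) = nth l2 k
      exact (ih k).2

theorem rps_nth_idl : ∀ n i : ℕ, i < n → nth (idl n) i = i := by
  intro n
  induction n with
  | zero => intro i hi; omega
  | succ n ih =>
    intro i hi
    rcases Nat.lt_or_ge i n with h | h
    · have h1 := (rps_nth_append (idl n) [n] i).1 (by rw [rps_len_idl]; exact h)
      show nth (idl n ++ [n]) i = i
      rw [h1]
      exact ih i h
    · have h2 : i = n := by omega
      have h1 := (rps_nth_append (idl n) [n] 0).2
      rw [rps_len_idl, Nat.add_zero] at h1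
      show nth (idl n ++ [n]) i = i
      rw [h2, h1]
      rfl

/-- the invariant -/
def RInv {V : Type} (n : ℕ) (f : ℕ → V) (r : List ℕ) : Prop :=
  r.length = n ∧ ∀ i, i < n → nth r i ≤ i ∧ nth r (nth r i) = nth r i ∧ f (nth r i) = f i

theorem rps_merge {V : Type} (n : ℕ) (f : ℕ → V) (r : List ℕ) (i j : ℕ) (hi : i < n) (hj : j < n)
    (hf : f i = f j) (h : RInv n f r) (hle : nth r i ≤ nth r j) :
    RInv n f (repl (nth r j) (nth r i) r) ∧
    (∀ x y, x < n → y < n → nth r x = nth r y →
      nth (repl (nth r j) (nth r i) r) x = nth (repl (nth r j) (nth r i) r) y) ∧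
    nth (repl (nth r j) (nth r i) r) i = nth (repl (nth r j) (nth r i) r) j := by
  obtain ⟨hl, h⟩ := h
  have hn : ∀ k, k < n → nth (repl (nth r j) (nth r i) r) k =
      if nth r k = nth r j then nth r i else nth r k := fun k hk =>
    rps_nth_repl _ _ r k (by rw [hl]; exact hk)
  refine ⟨⟨by rw [rps_len_repl]; exact hl, ?_⟩, ?_, ?_⟩
  · intro k hk
    obtain ⟨k1, k2, k3⟩ := h k hk
    obtain ⟨i1, i2, i3⟩ := h i hi
    obtain ⟨j1, j2, j3⟩ := h j hj
    rw [hn k hk]
    split_ifs with hc
    · refine ⟨by omega, ?_, ?_⟩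
      · rw [hn (nth r i) (by omega)]
        split_ifs with hc2
        · rfl
        · exact i2
      · rw [i3, hf, ← j3, ← hc, k3]
    · refine ⟨k1, ?_, k3⟩
      rw [hn (nth r k) (by omega)]
      rw [if_neg]
      · exact k2
      · rw [k2]; exact hc
  · intro x y hx hy hxy
    rw [hn x hx, hn y hy, hxy]
  · rw [hn i hi, hn j hj, if_pos rfl]
    split_ifs with hc
    · rfl
    · rfl

/-- bit `0` means that the values of `f` are different -/
def RCons {V : Type} (f : ℕ → V) : List (ℕ × ℕ) → ℕ → Prop
  | [], _ => True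
  | (i, j) :: l, ch => (Nat.beq (Nat.land ch 1) 1 = true ∨ f i ≠ f j) ∧
      RCons f l (Nat.shiftRight ch 1)

theorem rps_cons {V : Type} (f : ℕ → V) (n : ℕ) (r : List ℕ)
    (h : ∀ i j, i < n → j < n → f i ≠ f j → nu r i ≠ nu r j) : ∀ (q : List (ℕ × ℕ)) (ch : ℕ),
    (∀ x ∈ q, x.1 < n ∧ x.2 < n) → RCons f q ch → cons r q ch = true := by
  intro q
  induction q with
  | nil => intro ch _ _; rfl
  | cons p l ih =>
    intro ch hq hc
    obtain ⟨i, j⟩ := p
    have hij := hq (i, j) (by simp)
    obtain ⟨h1, h2⟩ := hc
    show ((Nat.beq (Nat.land ch 1) 1 || !(Nat.beq (nu r i) (nu r j))) &&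
      cons r l (Nat.shiftRight ch 1)) = true
    rw [ih (Nat.shiftRight ch 1) (fun x hx => hq x (List.mem_cons_of_mem _ hx)) h2]
    rcases h1 with h1 | h1
    · rw [h1]; rfl
    · have h3 : Nat.beq (nu r i) (nu r j) = false := by
        rw [Bool.eq_false_iff]
        intro hh
        exact h i j hij.1 hij.2 h1 (Nat.eq_of_beq_eq_true hh)
      rw [h3]
      simp

theorem rps_cnt_mono (r : List ℕ) (a : ℕ) : ∀ d : ℕ, cnt r a ≤ cnt r (a + d) := by
  intro d
  induction d with
  | zero => exact le_refl _
  | succ d ih =>
    refine le_trans ih ?_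
    show cnt r (a + d) ≤ (bif Nat.beq (nth r (a + d)) (a + d) then Nat.succ (cnt r (a + d))
      else cnt r (a + d))
    cases Nat.beq (nth r (a + d)) (a + d) with
    | true => exact Nat.le_succ _
    | false => exact le_refl _

theorem rps_cnt_lt (r : List ℕ) (a b : ℕ) (ha : nth r a = a) (hab : a < b) :
    cnt r a < cnt r b := by
  have h1 : cnt r (a + 1) = Nat.succ (cnt r a) := by
    show (bif Nat.beq (nth r a) a then Nat.succ (cnt r a) else cnt r a) = _
    rw [ha]
    simp
  obtain ⟨d, rfl⟩ := Nat.exists_eq_add_of_lt hab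
  have h2 := rps_cnt_mono r (a + 1) d
  have h3 : a + d + 1 = a + 1 + d := by omega
  rw [h3]
  omega

theorem rps_main {V : Type} (n : ℕ) (f : ℕ → V) : ∀ (q : List (ℕ × ℕ)) (r : List ℕ),
    (∀ x ∈ q, x.1 < x.2 ∧ x.2 < n) → RInv n f r →
    ∃ ch, ch < 2 ^ q.length ∧ RInv n f (reps q ch r) ∧
      (∀ x y, x < n → y < n → nth r x = nth r y →
        nth (reps q ch r) x = nth (reps q ch r) y) ∧
      (∀ x ∈ q, f x.1 = f x.2 → nth (reps q ch r) x.1 = nth (reps q ch r) x.2) ∧
      RCons f q ch := by
  intro q
  induction q with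
  | nil =>
    intro r _ hr
    exact ⟨0, by simp, hr, fun x y _ _ h => h, fun x hx => by simp at hx, trivial⟩
  | cons p l ih =>
    intro r hq hr
    obtain ⟨i, j⟩ := p
    have hij := hq (i, j) (by simp)
    simp only at hij
    have hj : j < n := hij.2
    have hi : i < n := lt_trans hij.1 hj
    have hql : ∀ x ∈ l, x.1 < x.2 ∧ x.2 < n := fun x hx => hq x (List.mem_cons_of_mem _ hx)
    have key : ∀ (b : ℕ) (r' : List ℕ), b < 2 → (b = 1 ∨ f i ≠ f j) →
        ((bif Nat.beq b 1 then
          (bif Nat.ble (nth r i) (nth r j) then repl (nth r j) (nth r i) r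
          else repl (nth r i) (nth r j) r) else r) = r') →
        RInv n f r' →
        (∀ x y, x < n → y < n → nth r x = nth r y → nth r' x = nth r' y) →
        (f i = f j → nth r' i = nth r' j) →
        ∃ ch, ch < 2 ^ ((i, j) :: l).length ∧ RInv n f (reps ((i, j) :: l) ch r) ∧
        (∀ x y, x < n → y < n → nth r x = nth r y →
          nth (reps ((i, j) :: l) ch r) x = nth (reps ((i, j) :: l) ch r) y) ∧
        (∀ x ∈ (i, j) :: l, f x.1 = f x.2 →
          nth (reps ((i, j) :: l) ch r) x.1 = nth (reps ((i, j) :: l) ch r) x.2) ∧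
        RCons f ((i, j) :: l) ch := by
      intro b r' hb hbf hbr hr' hkeep hfij
      obtain ⟨ch, h1, h2, h3, h4, h5⟩ := ih r' hql hr'
      have e1 : Nat.shiftRight (b + 2 * ch) 1 = ch := by
        show (b + 2 * ch) >>> 1 = ch
        rw [Nat.shiftRight_eq_div_pow]
        omega
      have e2 : Nat.land (b + 2 * ch) 1 = b := by
        show (b + 2 * ch) &&& 1 = b
        rw [Nat.and_one_is_mod]
        omega
      have e3 : reps ((i, j) :: l) (b + 2 * ch) r = reps l ch r' := by
        show reps l (Nat.shiftRight (b + 2 * ch) 1)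
          (bif Nat.beq (Nat.land (b + 2 * ch) 1) 1 then
          (bif Nat.ble (nth r i) (nth r j) then repl (nth r j) (nth r i) r
          else repl (nth r i) (nth r j) r) else r) = reps l ch r'
        rw [e1, e2, hbr]
      refine ⟨b + 2 * ch, ?_, ?_, ?_, ?_, ?_⟩
      · rw [List.length_cons, pow_succ]
        omega
      · rw [e3]; exact h2
      · intro x y hx hy hxy
        rw [e3]
        exact h3 x y hx hy (hkeep x y hx hy hxy)
      · intro x hx hfx
        rw [e3]
        rcases List.mem_cons.mp hx with h | h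
        · subst h
          exact h3 i j hi hj (hfij hfx)
        · exact h4 x h hfx
      · refine ⟨?_, ?_⟩
        · rw [e2]
          rcases hbf with hbf | hbf
          · left; rw [hbf]; rfl
          · right; exact hbf
        · rw [e1]; exact h5
    by_cases hf : f i = f j
    · rcases Nat.le_total (nth r i) (nth r j) with hle | hle
      · obtain ⟨m1, m2, m3⟩ := rps_merge n f r i j hi hj hf hr hle
        refine key 1 (repl (nth r j) (nth r i) r) (by omega) (Or.inl rfl) ?_ m1 m2 (fun _ => m3)
        have : Nat.ble (nth r i) (nth r j) = true := Nat.ble_eq.mpr hle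
        rw [this]
        rfl
      · by_cases he : nth r i = nth r j
        · obtain ⟨m1, m2, m3⟩ := rps_merge n f r i j hi hj hf hr he.le
          refine key 1 (repl (nth r j) (nth r i) r) (by omega) (Or.inl rfl) ?_ m1 m2 (fun _ => m3)
          have : Nat.ble (nth r i) (nth r j) = true := Nat.ble_eq.mpr he.le
          rw [this]
          rfl
        · obtain ⟨m1, m2, m3⟩ := rps_merge n f r j i hj hi hf.symm hr hle
          refine key 1 (repl (nth r i) (nth r j) r) (by omega) (Or.inl rfl) ?_ m1 m2 (fun _ => m3.symm)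
          have : Nat.ble (nth r i) (nth r j) = false := by
            rw [Bool.eq_false_iff]
            intro hc
            have := Nat.ble_eq.mp hc
            omega
          rw [this]
          rfl
    · exact key 0 r (by omega) (Or.inr hf) rfl hr (fun x y _ _ h => h) (fun h => absurd h hf)

theorem st_RPS : ST_RPS := by
  intro V n q f hq hcov
  have h0 : RInv n f (idl n) := by
    refine ⟨rps_len_idl n, ?_⟩
    intro i hi
    rw [rps_nth_idl n i hi, rps_nth_idl n i hi]
    exact ⟨le_refl _, rfl, rfl⟩
  obtain ⟨ch, h1, h2, -, h4, h5⟩ := rps_main n f q (idl n) hq h0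
  have hiff : ∀ i j, i < n → j < n →
      (nth (reps q ch (idl n)) i = nth (reps q ch (idl n)) j ↔ f i = f j) := by
    intro i j hi hj
    constructor
    · intro h
      rw [← (h2.2 i hi).2.2, ← (h2.2 j hj).2.2, h]
    · intro h
      rcases lt_trichotomy i j with hij | hij | hij
      · exact h4 (i, j) (hcov i j hij hj h) h
      · rw [hij]
      · exact (h4 (j, i) (hcov j i hij hi h.symm) h.symm).symm
  refine ⟨ch, ?_, ?_, h2.1, fun i hi => ⟨(h2.2 i hi).1, (h2.2 i hi).2.1⟩, hiff⟩
  · show ch < 1 <<< q.length
    rw [Nat.shiftLeft_eq, one_mul]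
    exact h1
  · refine rps_cons f n _ ?_ q ch (fun x hx => ⟨lt_trans (hq x hx).1 (hq x hx).2, (hq x hx).2⟩) h5
    intro i j hi hj hne hnu
    apply hne
    rw [← hiff i j hi hj]
    rcases lt_trichotomy (nth (reps q ch (idl n)) i) (nth (reps q ch (idl n)) j) with h | h | h
    · have := rps_cnt_lt _ _ _ (h2.2 i hi).2.1 h
      unfold nu at hnu
      omega
    · exact h
    · have := rps_cnt_lt _ _ _ (h2.2 j hj).2.1 h
      unfold nu at hnu
      omega

end Pool.Agent.Helper64.FL
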