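import Pool.Agent.Helper64.FL.StH

/-! Full list for MP_866009_co, module TRN: a triangle and a further neighbour. -/

set_option autoImplicit false

namespace Pool.Agent.Helper64.FL

open Pool.Agent.Helper64.CT Pool.Agent.Helper64.DT
open Pool.Agent.Helper64.HG (Ovl Model Circ IC HellyCircle ChordModel)

theorem st_TRN (_h1 : ST_NJC) : ST_TRN := by
  intro V G S b hNJ x hx y hy z hz u hu hxy hxz hyz hxu hfy hfz
  obtain ⟨-, h2, h3⟩ := hNJ
  have hyu : y ≠ u := fun hh => hfy.1 hh.symm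
  have hzu : z ≠ u := fun hh => hfz.1 hh.symm
  have hnyu : ¬ G.Adj y u := hfy.2
  have hnzu : ¬ G.Adj z u := hfz.2
  have e1 := h3 x hx y hy u hu hxy hxu hyu hnyu
  have e2 := h3 x hx z hz u hu hxz hxu hzu hnzu
  have e3 : b u y = b u z := h2 u hu y hy z hz ⟨hyu, fun hh => hnyu hh.symm⟩
    ⟨hzu, fun hh => hnzu hh.symm⟩ hyz
  rw [e3] at e1
  revert e1 e2
  cases b y u <;> cases b z u <;> cases b u z <;> cases b x y <;> cases b x z <;>
    cases b x u <;> simp

end Pool.Agent.Helper64.FL
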